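import Mathlib
import Pool.Agent.LibF4.ODefs
import Pool.Agent.LibTG78.D3b
import Pool.Agent.LibFG78.B06

set_option autoImplicit false

namespace Pool.Agent.LibF4J

open MeasureTheory Filter Topology Pool.Agent.LibMM99 Pool.Agent.LibTG78 Pool.Agent.LibFG78
open Pool.Agent.LibF4 (JF JD FF DD Fp px py)
open scoped ComplexConjugate

noncomputable def R4 (w1 w2 z1 z2 : ℂ) (p : ℕ) (x : Om) : ℂ :=
  (1 - z1 * ch x p)⁻¹ * (1 - z2 * ch x p)⁻¹ * ((1 - w1 * conj (ch x p))⁻¹ * (1 - w2 * conj (ch x p))⁻¹)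

noncomputable def N4 (w1 w2 z1 z2 : ℂ) : ℂ :=
  (1 - w1 * w2 * (z1 * z2)) / ((1 - w1 * z1) * (1 - w1 * z2) * ((1 - w2 * z1) * (1 - w2 * z2)))

noncomputable def G4 (x q y : ℂ) (j : ℕ) : ℂ :=
  (∑ i ∈ Finset.range (j + 1), y ^ i - (x + q * y) * ∑ i ∈ Finset.range j, y ^ i +
    q * x * y * ∑ i ∈ Finset.range (j - 1), y ^ i) / (1 - x * q)

noncomputable def NN (a1 a2 b1 b2 : ℂ) (L : ℝ) : ℂ :=
  ∏ p ∈ prm 1 (Real.exp L), N4 (zp a1 p) (zp a2 p) (zp b1 p) (zp b2 p)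

noncomputable def D4 (a1 a2 b1 b2 : ℂ) (L : ℝ) (x : Om) : ℂ :=
  ZZ b1 1 (Real.exp L) x * ZZ b2 1 (Real.exp L) x *
    (conj (ZZ (conj a1) 1 (Real.exp L) x) * conj (ZZ (conj a2) 1 (Real.exp L) x))

noncomputable def JS (S : Finset (ℕ × ℕ)) (c : ℕ × ℕ → ℂ) (α β z : ℂ) : ℂ :=
  ∑ q ∈ S, c q * JF (q.1 / Nat.gcd q.1 q.2) (q.2 / Nat.gcd q.1 q.2) α β z

end Pool.Agent.LibF4J
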