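import Mathlib
import Pool.Agent.LibF4J.JDefs

/-! Row J01.
(1 - z1 c)⁻¹ = ∑ z1^i c^i; exchange sum and integral (copy the proof of LibTG78.D2a_one); for each i the integral
∫ (1 - z2 c)⁻¹ c^(i+j) is LibTG78.D2a_one with a = i + j, b = 0 (ch x (p^a) = ch x p ^ a is LibTG78.D2a_ch_pow): it is 1 if i + j = 0 and 0
otherwise. The second statement is the complex conjugate of the first with conj z1, conj z2 (as D2a_two from D2a_one).
-/

set_option autoImplicit false

namespace Pool.Agent.LibF4J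

open MeasureTheory Filter Topology Pool.Agent.LibMM99 Pool.Agent.LibTG78 Pool.Agent.LibFG78
open Pool.Agent.LibF4 (JF JD FF DD Fp px py)
open scoped ComplexConjugate

theorem J01_one {p : ℕ} (hp : p.Prime) {z1 z2 : ℂ} (h1 : ‖z1‖ < 1) (h2 : ‖z2‖ < 1) (j : ℕ) :
    ∫ x, (1 - z1 * ch x p)⁻¹ * (1 - z2 * ch x p)⁻¹ * ch x p ^ j ∂mu = if j = 0 then 1 else 0 := by
  set F : ℕ → Om → ℂ := fun i x =>
    z1 ^ i * ((1 - z2 * ch x p)⁻¹ * (ch x (p ^ (i + j)) * conj (ch x (p ^ 0)))) with hF
  have hcont : ∀ i, Continuous (F i) := fun i =>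
    continuous_const.mul (((continuous_const.sub (continuous_const.mul (continuous_ch _))).inv₀
      fun x => D2a_ne x p h2).mul ((continuous_ch _).mul
        (Complex.continuous_conj.comp (continuous_ch _))))
  have hn : ∀ i x, ‖F i x‖ ≤ ‖z1‖ ^ i * (1 - ‖z2‖)⁻¹ := fun i x => by
    rw [hF]
    simp only [norm_mul, norm_pow, Complex.norm_conj, norm_ch, mul_one]
    refine mul_le_mul_of_nonneg_left ?_ (by positivity)
    rw [norm_inv]
    refine inv_anti₀ (by linarith) ?_
    have h3 := norm_sub_norm_le (1 : ℂ) (z2 * ch x p)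
    rw [norm_one, norm_mul, norm_ch, mul_one] at h3
    exact h3
  have hsum : Summable fun i => ∫ x, ‖F i x‖ ∂mu := by
    refine Summable.of_nonneg_of_le (fun i => integral_nonneg fun x => norm_nonneg _) (fun i => ?_)
      ((summable_geometric_of_lt_one (norm_nonneg _) h1).mul_right (1 - ‖z2‖)⁻¹)
    have h3 := integral_mono (μ := mu) (integrable_of_continuous (hcont i).norm)
      (integrable_const (‖z1‖ ^ i * (1 - ‖z2‖)⁻¹)) (hn i)
    simpa using h3
  have key := hasSum_integral_of_summable_integral_norm (μ := mu) (F := F)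
    (fun i => integrable_of_continuous (hcont i)) hsum
  have e1 : ∀ x, ∑' i, F i x = (1 - z1 * ch x p)⁻¹ * (1 - z2 * ch x p)⁻¹ * ch x p ^ j := by
    intro x
    have h3 : ‖z1 * ch x p‖ < 1 := by rw [norm_mul, norm_ch, mul_one]; exact h1
    have h4 := (hasSum_geometric_of_norm_lt_one h3).mul_right
      ((1 - z2 * ch x p)⁻¹ * ch x p ^ j)
    rw [mul_assoc]
    refine HasSum.tsum_eq ?_
    refine h4.congr_fun fun i => ?_
    rw [hF]
    simp only []
    rw [pow_zero, ch_one, map_one, D2a_ch_pow x hp, pow_add, mul_pow]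
    ring
  have e2 : ∀ i, ∫ x, F i x ∂mu = if i = 0 then (if j = 0 then 1 else 0) else 0 := by
    intro i
    rw [hF]
    simp only []
    rw [integral_const_mul, D2a_one hp h2]
    by_cases hi : i = 0
    · rw [if_pos hi, hi, pow_zero, one_mul, Nat.zero_add]
      by_cases hj : j = 0
      · rw [hj]
        simp
      · rw [if_neg (by omega), if_neg hj]
    · rw [if_neg hi, if_neg (by omega), mul_zero]
  simp_rw [e1] at key
  simp_rw [e2] at key
  refine key.unique ?_
  exact hasSum_ite_eq 0 (if j = 0 then (1 : ℂ) else 0)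

theorem J01_two {p : ℕ} (hp : p.Prime) {z1 z2 : ℂ} (h1 : ‖z1‖ < 1) (h2 : ‖z2‖ < 1) (j : ℕ) :
    ∫ x, (1 - z1 * conj (ch x p))⁻¹ * (1 - z2 * conj (ch x p))⁻¹ * conj (ch x p) ^ j ∂mu =
      if j = 0 then 1 else 0 := by
  have h := J01_one hp (z1 := conj z1) (z2 := conj z2) (by rw [Complex.norm_conj]; exact h1)
    (by rw [Complex.norm_conj]; exact h2) j
  have h3 : ∫ x, (1 - z1 * conj (ch x p))⁻¹ * (1 - z2 * conj (ch x p))⁻¹ * conj (ch x p) ^ j ∂mu
      = conj (∫ x, (1 - conj z1 * ch x p)⁻¹ * (1 - conj z2 * ch x p)⁻¹ * ch x p ^ j ∂mu) := by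
    rw [← integral_conj]
    refine integral_congr_ae (ae_of_all _ fun x => ?_)
    simp only [map_mul, map_inv₀, map_sub, map_one, map_pow, Complex.conj_conj]
  rw [h3, h]
  split_ifs
  · exact map_one _
  · exact map_zero _

end Pool.Agent.LibF4J
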