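import Mathlib
import Pool.Agent.LibF4J.JDefs

/-! Row J02.
Pure algebra. With P = w1 w2 z1 z2: A 1 (1-P) = ((w1+w2) - w1 w2 (z1+z2)) A 0, B 1 (1-P) = ((z1+z2) - z1 z2 (w1+w2)) A 0, insert in hn:
A 0 * ((1-P)^2 - (w1+w2-w1 w2 (z1+z2)) (z1+z2-z1 z2 (w1+w2))) = 1 - P and (1-P)^2 - (...)(...) = (1-w1 z1)(1-w1 z2)(1-w2 z1)(1-w2 z2).
J02_pow: with w2 = y w1, q = w1 z1, x = w2 z2 (so q y = w2 z1, x = y w1 z2, P = x q): j = 1: A 1 = A 0 w1 ((1+y) - (x + q y))/(1 - x q); j = 2 from hA 0;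
then induction: each of the three sums S_j = ∑_{i<j} y^i satisfies S_{j+2} = (1+y) S_{j+1} - y S_j, so j ↦ w1^j G4 .. j (j ≥ 1) satisfies the same recursion.
-/

set_option autoImplicit false

namespace Pool.Agent.LibF4J

open MeasureTheory Filter Topology Pool.Agent.LibMM99 Pool.Agent.LibTG78 Pool.Agent.LibFG78
open Pool.Agent.LibF4 (JF JD FF DD Fp px py)
open scoped ComplexConjugate

theorem J02_zero {A B : ℕ → ℂ} {w1 w2 z1 z2 : ℂ} (h0 : B 0 = A 0)
    (hA1 : A 1 = (w1 + w2) * A 0 - w1 * w2 * B 1) (hB1 : B 1 = (z1 + z2) * A 0 - z1 * z2 * A 1)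
    (hB2 : B 2 = (z1 + z2) * B 1 - z1 * z2 * B 0) (hn : A 0 - (w1 + w2) * B 1 + w1 * w2 * B 2 = 1)
    (hd : 1 - w1 * w2 * (z1 * z2) ≠ 0) (h11 : 1 - w1 * z1 ≠ 0) (h12 : 1 - w1 * z2 ≠ 0) (h21 : 1 - w2 * z1 ≠ 0)
    (h22 : 1 - w2 * z2 ≠ 0) : A 0 = N4 w1 w2 z1 z2 := by
  have hb : B 1 * (1 - w1 * w2 * (z1 * z2)) - ((z1 + z2) - z1 * z2 * (w1 + w2)) * A 0 = 0 := by
    linear_combination hB1 - z1 * z2 * hA1
  have hn' : A 0 * (1 - w1 * w2 * (z1 * z2)) - ((w1 + w2) - w1 * w2 * (z1 + z2)) * B 1 = 1 := by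
    linear_combination hn - w1 * w2 * hB2 + w1 * w2 * (z1 * z2) * h0
  unfold N4
  rw [eq_div_iff (mul_ne_zero (mul_ne_zero h11 h12) (mul_ne_zero h21 h22))]
  linear_combination (1 - w1 * w2 * (z1 * z2)) * hn' + ((w1 + w2) - w1 * w2 * (z1 + z2)) * hb

theorem J02_pow {A B : ℕ → ℂ} {w1 w2 z1 z2 y : ℂ} (hy : w2 = y * w1) (hA1 : A 1 = (w1 + w2) * A 0 - w1 * w2 * B 1)
    (hB1 : B 1 = (z1 + z2) * A 0 - z1 * z2 * A 1) (hA : ∀ j, A (j + 2) = (w1 + w2) * A (j + 1) - w1 * w2 * A j)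
    (hd : 1 - w1 * w2 * (z1 * z2) ≠ 0) (j : ℕ) (hj : 1 ≤ j) :
    A j = A 0 * (w1 ^ j * G4 (w2 * z2) (w1 * z1) y j) := by
  have hd' : 1 - y * w1 * z2 * (w1 * z1) ≠ 0 := by
    intro h
    apply hd
    rw [hy]
    linear_combination h
  have ha : A 1 * (1 - w1 * w2 * (z1 * z2)) - ((w1 + w2) - w1 * w2 * (z1 + z2)) * A 0 = 0 := by
    linear_combination hA1 - w1 * w2 * hB1
  have hA2 := hA 0
  rw [hy] at ha hA hA2
  rw [zero_add] at hA2
  rw [hy]
  set H : ℕ → ℂ := fun j => ∑ i ∈ Finset.range (j + 1), y ^ i -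
    (y * w1 * z2 + w1 * z1 * y) * ∑ i ∈ Finset.range j, y ^ i +
      w1 * z1 * (y * w1 * z2) * y * ∑ i ∈ Finset.range (j - 1), y ^ i with hH
  have h1 : A 1 * (1 - y * w1 * z2 * (w1 * z1)) = A 0 * (w1 ^ 1 * H 1) := by
    rw [hH]
    simp only [Finset.sum_range_succ, Finset.sum_range_zero, Nat.sub_self]
    linear_combination ha
  have key : ∀ j : ℕ, A (j + 1) * (1 - y * w1 * z2 * (w1 * z1)) =
      A 0 * (w1 ^ (j + 1) * H (j + 1)) ∧
      A (j + 2) * (1 - y * w1 * z2 * (w1 * z1)) = A 0 * (w1 ^ (j + 2) * H (j + 2)) := by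
    intro j
    induction j with
    | zero =>
      refine ⟨h1, ?_⟩
      rw [zero_add, hA2]
      have h2 : H 2 = (1 + y) * H 1 - y * (1 - y * w1 * z2 * (w1 * z1)) := by
        rw [hH]
        simp only [Finset.sum_range_succ, Finset.sum_range_zero, Nat.sub_self,
          (by norm_num : 2 - 1 = 1)]
        ring
      rw [h2]
      linear_combination (w1 + y * w1) * h1
    | succ j ih =>
      refine ⟨ih.2, ?_⟩
      have e1 : ∀ m : ℕ, ∑ i ∈ Finset.range (m + 2), y ^ i = (1 + y) *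
          ∑ i ∈ Finset.range (m + 1), y ^ i - y * ∑ i ∈ Finset.range m, y ^ i := by
        intro m
        have h3 : ∑ i ∈ Finset.range (m + 1), y ^ i = 1 + y * ∑ i ∈ Finset.range m, y ^ i := by
          rw [Finset.sum_range_succ', Finset.mul_sum, pow_zero, add_comm]
          congr 1
          exact Finset.sum_congr rfl fun i _ => by rw [pow_succ, mul_comm]
        have h4 : ∑ i ∈ Finset.range (m + 2), y ^ i =
            1 + y * ∑ i ∈ Finset.range (m + 1), y ^ i := by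
          rw [Finset.sum_range_succ', Finset.mul_sum, pow_zero, add_comm]
          congr 1
          exact Finset.sum_congr rfl fun i _ => by rw [pow_succ, mul_comm]
        rw [h4, h3]
        ring
      have h2 : H (j + 1 + 2) = (1 + y) * H (j + 2) - y * H (j + 1) := by
        rw [hH]
        have g1 : j + 1 + 2 - 1 = j + 2 := by omega
        have g2 : j + 2 - 1 = j + 1 := by omega
        have g3 : j + 1 - 1 = j := by omega
        simp only []
        rw [g1, g2, g3, e1 (j + 2), e1 (j + 1), e1 j]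
        ring
      rw [hA (j + 1), h2]
      have e2 : w1 ^ (j + 1 + 2) = w1 ^ (j + 1) * w1 ^ 2 := pow_add _ _ _
      have e3 : w1 ^ (j + 2) = w1 ^ (j + 1) * w1 := pow_succ _ _
      rw [e2]
      have ih2 := ih.2
      rw [e3] at ih2
      linear_combination (w1 + y * w1) * ih2 - w1 * (y * w1) * ih.1
  obtain ⟨i, rfl⟩ : ∃ i, j = i + 1 := ⟨j - 1, by omega⟩
  have h5 := (key i).1
  unfold G4
  rw [← mul_div_assoc, ← mul_div_assoc, eq_div_iff hd']
  exact h5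

end Pool.Agent.LibF4J
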