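import Mathlib
import Pool.Agent.LibF4J.JDefs
import Pool.Agent.LibF4J.J01
import Pool.Agent.LibF4J.J02

/-! Row J03.
Put A j = ∫ R4 * ch x p ^ j, B j = ∫ R4 * conj (ch x p) ^ j (ch x (p^j) = ch x p ^ j: LibTG78.D2a_ch_pow). From c * conj c = 1 (D2a_conj_mul):
R4 * (1 - w1 conj c)(1 - w2 conj c) = (1 - z1 c)⁻¹ (1 - z2 c)⁻¹ and R4 * (1 - z1 c)(1 - z2 c) = (1 - w1 conj c)⁻¹ (1 - w2 conj c)⁻¹ (1 - z c ≠ 0: D2a_ne, D2a_ne').
Multiply by c^(j+2), c, 1 resp. conj c ^ (j+2), conj c and integrate (J01_one, J01_two): A (j+2) = (w1+w2) A (j+1) - w1 w2 A j, A 1 = (w1+w2) A 0 - w1 w2 B 1,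
B (j+2) = (z1+z2) B (j+1) - z1 z2 B j, B 1 = (z1+z2) B 0 - z1 z2 A 1, A 0 - (w1+w2) B 1 + w1 w2 B 2 = 1, A 0 = B 0. Then J02_zero, J02_pow; for the third
statement J02_pow with A and B exchanged (w1 w2 ↔ z1 z2), N4 is not needed there beyond A 0 = B 0 = N4. The denominators are ≠ 0 since all norms are < 1.
All integrands are continuous (integrable_of_continuous).
-/

set_option autoImplicit false

namespace Pool.Agent.LibF4J

open MeasureTheory Filter Topology Pool.Agent.LibMM99 Pool.Agent.LibTG78 Pool.Agent.LibFG78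
open Pool.Agent.LibF4 (JF JD FF DD Fp px py)
open scoped ComplexConjugate

theorem J03_lin {f1 f2 f3 g : Om → ℂ} (c2 : Continuous f2) (c3 : Continuous f3)
    (cg : Continuous g) (a b : ℂ) (h : ∀ x, f1 x = a * f2 x - b * f3 x + g x) :
    ∫ x, f1 x ∂mu = a * ∫ x, f2 x ∂mu - b * ∫ x, f3 x ∂mu + ∫ x, g x ∂mu := by
  have e : ∫ x, f1 x ∂mu = ∫ x, (a * f2 x - b * f3 x + g x) ∂mu :=
    integral_congr_ae (ae_of_all _ fun x => h x)
  have i2 : Integrable (fun x => a * f2 x) mu := integrable_of_continuous (continuous_const.mul c2)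
  have i3 : Integrable (fun x => b * f3 x) mu := integrable_of_continuous (continuous_const.mul c3)
  have i4 : Integrable (fun x => a * f2 x - b * f3 x) mu := i2.sub i3
  rw [e, integral_add i4 (integrable_of_continuous cg), integral_sub i2 i3, integral_const_mul,
    integral_const_mul]

theorem J03_ne {a b : ℂ} (ha : ‖a‖ < 1) (hb : ‖b‖ < 1) : 1 - a * b ≠ 0 := by
  intro h
  have h1 : a * b = 1 := (sub_eq_zero.1 h).symm
  have h2 : ‖a * b‖ = 1 := by rw [h1]; simp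
  rw [norm_mul] at h2
  have h3 : ‖a‖ * ‖b‖ ≤ ‖a‖ * 1 := mul_le_mul_of_nonneg_left hb.le (norm_nonneg _)
  linarith

theorem J03_circ {p : ℕ} (hp : p.Prime) {w1 w2 z1 z2 : ℂ} (hw1 : ‖w1‖ < 1) (hw2 : ‖w2‖ < 1) (hz1 : ‖z1‖ < 1)
    (hz2 : ‖z2‖ < 1) :
    (∫ x, R4 w1 w2 z1 z2 p x ∂mu = N4 w1 w2 z1 z2) ∧
    (∀ (y : ℂ) (j : ℕ), w2 = y * w1 → 1 ≤ j →
      ∫ x, R4 w1 w2 z1 z2 p x * ch x (p ^ j) ∂mu = N4 w1 w2 z1 z2 * (w1 ^ j * G4 (w2 * z2) (w1 * z1) y j)) ∧
    (∀ (y : ℂ) (j : ℕ), z2 = y * z1 → 1 ≤ j →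
      ∫ x, R4 w1 w2 z1 z2 p x * conj (ch x (p ^ j)) ∂mu = N4 w1 w2 z1 z2 * (z1 ^ j * G4 (w2 * z2) (w1 * z1) y j)) := by
  have cc : Continuous fun x : Om => ch x p := continuous_ch p
  have cb : Continuous fun x : Om => conj (ch x p) := Complex.continuous_conj.comp cc
  have ci : ∀ z : ℂ, ‖z‖ < 1 → Continuous fun x : Om => (1 - z * ch x p)⁻¹ := fun z hz =>
    (continuous_const.sub (continuous_const.mul cc)).inv₀ fun x => D2a_ne x p hz
  have cj : ∀ z : ℂ, ‖z‖ < 1 → Continuous fun x : Om => (1 - z * conj (ch x p))⁻¹ := fun z hz =>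
    (continuous_const.sub (continuous_const.mul cb)).inv₀ fun x => D2a_ne' x p hz
  have cR : Continuous fun x : Om => R4 w1 w2 z1 z2 p x :=
    ((ci z1 hz1).mul (ci z2 hz2)).mul ((cj w1 hw1).mul (cj w2 hw2))
  set A : ℕ → ℂ := fun j => ∫ x, R4 w1 w2 z1 z2 p x * ch x p ^ j ∂mu with hAdef
  set B : ℕ → ℂ := fun j => ∫ x, R4 w1 w2 z1 z2 p x * conj (ch x p) ^ j ∂mu with hBdef
  have cA : ∀ j, Continuous fun x : Om => R4 w1 w2 z1 z2 p x * ch x p ^ j := fun j =>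
    cR.mul (cc.pow j)
  have cB : ∀ j, Continuous fun x : Om => R4 w1 w2 z1 z2 p x * conj (ch x p) ^ j := fun j =>
    cR.mul (cb.pow j)
  have cg : ∀ j : ℕ, Continuous fun x : Om =>
      (1 - z1 * ch x p)⁻¹ * (1 - z2 * ch x p)⁻¹ * ch x p ^ j := fun j =>
    ((ci z1 hz1).mul (ci z2 hz2)).mul (cc.pow j)
  have ck : ∀ j : ℕ, Continuous fun x : Om =>
      (1 - w1 * conj (ch x p))⁻¹ * (1 - w2 * conj (ch x p))⁻¹ * conj (ch x p) ^ j := fun j =>
    ((cj w1 hw1).mul (cj w2 hw2)).mul (cb.pow j)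
  have hcm : ∀ x : Om, ch x p * conj (ch x p) = 1 := fun x => D2a_conj_mul x p
  -- the two pointwise relations
  have hr1 : ∀ x : Om, R4 w1 w2 z1 z2 p x = (w1 + w2) * (R4 w1 w2 z1 z2 p x * conj (ch x p)) -
      w1 * w2 * (R4 w1 w2 z1 z2 p x * conj (ch x p) ^ 2) +
      (1 - z1 * ch x p)⁻¹ * (1 - z2 * ch x p)⁻¹ := by
    intro x
    have n1 := D2a_ne' x p hw1
    have n2 := D2a_ne' x p hw2
    have e : R4 w1 w2 z1 z2 p x * ((1 - w1 * conj (ch x p)) * (1 - w2 * conj (ch x p))) =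
        (1 - z1 * ch x p)⁻¹ * (1 - z2 * ch x p)⁻¹ := by
      unfold R4
      have k1 := inv_mul_cancel₀ n1
      have k2 := inv_mul_cancel₀ n2
      generalize (1 - z1 * ch x p)⁻¹ = u1
      generalize (1 - z2 * ch x p)⁻¹ = u2
      generalize (1 - w1 * conj (ch x p))⁻¹ = v1 at *
      generalize (1 - w2 * conj (ch x p))⁻¹ = v2 at *
      generalize 1 - w1 * conj (ch x p) = a1 at *
      generalize 1 - w2 * conj (ch x p) = a2 at *
      linear_combination u1 * u2 * (v2 * a2) * k1 + u1 * u2 * k2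
    linear_combination e
  have hr2 : ∀ x : Om, R4 w1 w2 z1 z2 p x = (z1 + z2) * (R4 w1 w2 z1 z2 p x * ch x p) -
      z1 * z2 * (R4 w1 w2 z1 z2 p x * ch x p ^ 2) +
      (1 - w1 * conj (ch x p))⁻¹ * (1 - w2 * conj (ch x p))⁻¹ := by
    intro x
    have n1 := D2a_ne x p hz1
    have n2 := D2a_ne x p hz2
    have e : R4 w1 w2 z1 z2 p x * ((1 - z1 * ch x p) * (1 - z2 * ch x p)) =
        (1 - w1 * conj (ch x p))⁻¹ * (1 - w2 * conj (ch x p))⁻¹ := by
      unfold R4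
      have k1 := inv_mul_cancel₀ n1
      have k2 := inv_mul_cancel₀ n2
      generalize (1 - w1 * conj (ch x p))⁻¹ = u1
      generalize (1 - w2 * conj (ch x p))⁻¹ = u2
      generalize (1 - z1 * ch x p)⁻¹ = v1 at *
      generalize (1 - z2 * ch x p)⁻¹ = v2 at *
      generalize 1 - z1 * ch x p = a1 at *
      generalize 1 - z2 * ch x p = a2 at *
      linear_combination u1 * u2 * (v2 * a2) * k1 + u1 * u2 * k2
    linear_combination e
  have hAB : B 0 = A 0 := by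
    rw [hAdef, hBdef]
    simp only [pow_zero]
  have hA1 : A 1 = (w1 + w2) * A 0 - w1 * w2 * B 1 := by
    have h := J03_lin (f1 := fun x => R4 w1 w2 z1 z2 p x * ch x p ^ 1) (cA 0) (cB 1)
      (cg 1) (w1 + w2) (w1 * w2) (fun x => by
        linear_combination ch x p * hr1 x + ((w1 + w2) * R4 w1 w2 z1 z2 p x -
          w1 * w2 * R4 w1 w2 z1 z2 p x * conj (ch x p)) * hcm x)
    rw [J01_one hp hz1 hz2 1, if_neg one_ne_zero, add_zero] at h
    exact h
  have hA : ∀ j, A (j + 2) = (w1 + w2) * A (j + 1) - w1 * w2 * A j := by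
    intro j
    have h := J03_lin (f1 := fun x => R4 w1 w2 z1 z2 p x * ch x p ^ (j + 2)) (cA (j + 1)) (cA j)
      (cg (j + 2)) (w1 + w2) (w1 * w2) (fun x => by
        have e1 : ch x p ^ (j + 2) = ch x p ^ j * ch x p ^ 2 := pow_add _ _ _
        have e2 : ch x p ^ (j + 1) = ch x p ^ j * ch x p := pow_succ _ _
        simp only [e1, e2]
        linear_combination ch x p ^ j * ch x p ^ 2 * hr1 x +
          ch x p ^ j * ((w1 + w2) * R4 w1 w2 z1 z2 p x * ch x p -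
          w1 * w2 * R4 w1 w2 z1 z2 p x * (ch x p * conj (ch x p) + 1)) * hcm x)
    rw [J01_one hp hz1 hz2 (j + 2), if_neg (Nat.succ_ne_zero _), add_zero] at h
    exact h
  have hn : A 0 - (w1 + w2) * B 1 + w1 * w2 * B 2 = 1 := by
    have h := J03_lin (f1 := fun x => R4 w1 w2 z1 z2 p x * ch x p ^ 0) (cB 1) (cB 2)
      (cg 0) (w1 + w2) (w1 * w2) (fun x => by
        simp only [pow_zero, pow_one]
        linear_combination hr1 x)
    rw [J01_one hp hz1 hz2 0, if_pos rfl] at h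
    have h' : A 0 = (w1 + w2) * B 1 - w1 * w2 * B 2 + 1 := h
    linear_combination h'
  have hB1 : B 1 = (z1 + z2) * B 0 - z1 * z2 * A 1 := by
    have h := J03_lin (f1 := fun x => R4 w1 w2 z1 z2 p x * conj (ch x p) ^ 1) (cB 0) (cA 1)
      (ck 1) (z1 + z2) (z1 * z2) (fun x => by
        linear_combination conj (ch x p) * hr2 x + ((z1 + z2) * R4 w1 w2 z1 z2 p x -
          z1 * z2 * R4 w1 w2 z1 z2 p x * ch x p) * hcm x)
    rw [J01_two hp hw1 hw2 1, if_neg one_ne_zero, add_zero] at h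
    exact h
  have hB : ∀ j, B (j + 2) = (z1 + z2) * B (j + 1) - z1 * z2 * B j := by
    intro j
    have h := J03_lin (f1 := fun x => R4 w1 w2 z1 z2 p x * conj (ch x p) ^ (j + 2)) (cB (j + 1))
      (cB j) (ck (j + 2)) (z1 + z2) (z1 * z2) (fun x => by
        have e1 : conj (ch x p) ^ (j + 2) = conj (ch x p) ^ j * conj (ch x p) ^ 2 := pow_add _ _ _
        have e2 : conj (ch x p) ^ (j + 1) = conj (ch x p) ^ j * conj (ch x p) := pow_succ _ _
        simp only [e1, e2]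
        linear_combination conj (ch x p) ^ j * conj (ch x p) ^ 2 * hr2 x +
          conj (ch x p) ^ j * ((z1 + z2) * R4 w1 w2 z1 z2 p x * conj (ch x p) -
          z1 * z2 * R4 w1 w2 z1 z2 p x * (ch x p * conj (ch x p) + 1)) * hcm x)
    rw [J01_two hp hw1 hw2 (j + 2), if_neg (Nat.succ_ne_zero _), add_zero] at h
    exact h
  have hd : 1 - w1 * w2 * (z1 * z2) ≠ 0 := by
    refine J03_ne ?_ ?_
    · rw [norm_mul]
      have := mul_le_mul_of_nonneg_left hw2.le (norm_nonneg w1)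
      linarith
    · rw [norm_mul]
      have := mul_le_mul_of_nonneg_left hz2.le (norm_nonneg z1)
      linarith
  have hB1' : B 1 = (z1 + z2) * A 0 - z1 * z2 * A 1 := by rw [hB1, hAB]
  have hA1' : A 1 = (w1 + w2) * B 0 - w1 * w2 * B 1 := by rw [hA1, hAB]
  have hz : A 0 = N4 w1 w2 z1 z2 := J02_zero hAB hA1 hB1' (hB 0) hn hd (J03_ne hw1 hz1)
    (J03_ne hw1 hz2) (J03_ne hw2 hz1) (J03_ne hw2 hz2)
  refine ⟨?_, ?_, ?_⟩
  · rw [← hz, hAdef]
    simp only [pow_zero, mul_one]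
  · intro y j hy hj
    have h := J02_pow hy hA1 hB1' hA hd j hj
    rw [hz] at h
    rw [← h, hAdef]
    simp only [D2a_ch_pow _ hp]
  · intro y j hy hj
    have hd2 : 1 - z1 * z2 * (w1 * w2) ≠ 0 := by
      rw [mul_comm]
      exact hd
    have h := J02_pow (A := B) (B := A) hy hB1 hA1' hB hd2 j hj
    rw [hAB, hz, mul_comm z2 w2, mul_comm z1 w1] at h
    rw [← h, hBdef]
    simp only [D2a_ch_pow _ hp, map_pow]

end Pool.Agent.LibF4J
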