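import Mathlib
import Pool.Agent.LibF4J.JDefs
import Pool.Agent.LibF4J.J03

/-! Row J04.
Copy the proof of LibTG78.D2b_single (D2b_prod_int, D2b_ch_prod, D2b_cpow_prod, D2b_nat_prod, D2b_conj_zp). D4 * (ch x m * conj (ch x n)) = ∏_{p ∈ prm 1 (exp L)}
R4 (zp a1 p) (zp a2 p) (zp b1 p) (zp b2 p) p x * (ch x (p^v_p(m)) * conj (ch x (p^v_p(n)))), a1 = α - z/2, a2 = β + z/2, b1 = β - z/2, b2 = α + z/2 (all Adm, so |zp| < 1: D2b_zp_lt).
m, n coprime: at most one of the exponents is ≠ 0; J03_circ with y = py α β z p (zp a2 p = py α β z p * zp a1 p) resp. y = py β α z p (zp b2 p = py β α z p * zp b1 p);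
zp a2 p * zp b2 p = px (α+β) z p, zp a1 p * zp b1 p = px (α+β) (-z) p, so G4 .. = Fp. Powers: ∏_{p ∣ m} (zp a1 p)^v = m^(-α) m^((z-1)/2), same for n; JF, FF unfold.
-/

set_option autoImplicit false

namespace Pool.Agent.LibF4J

open MeasureTheory Filter Topology Pool.Agent.LibMM99 Pool.Agent.LibTG78 Pool.Agent.LibFG78
open Pool.Agent.LibF4 (JF JD FF DD Fp px py)
open scoped ComplexConjugate

theorem J04_zp_mul (s t : ℂ) {p : ℕ} (hp : p ≠ 0) : zp s p * zp t p = (p : ℂ) ^ (-(1 + s + t)) := by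
  unfold zp
  rw [← Complex.cpow_add _ _ (by exact_mod_cast hp)]
  congr 1
  ring

theorem J04_cpow_mul_zp (w s : ℂ) {p : ℕ} (hp : p ≠ 0) : (p : ℂ) ^ w * zp s p = zp (s - w) p := by
  unfold zp
  rw [← Complex.cpow_add _ _ (by exact_mod_cast hp)]
  congr 1
  ring

theorem J04_int {L : ℝ} (hL : 1 ≤ L) {α β z : ℂ} (hα : ‖α‖ ≤ 1 / (40 * L)) (hβ : ‖β‖ ≤ 1 / (40 * L))
    (hz : ‖z‖ ≤ 1 / (40 * L)) {m n : ℕ} (hm : 1 ≤ m) (hn : 1 ≤ n) (hc : Nat.Coprime m n)
    (hm' : ∀ p ∈ m.primeFactors, (p : ℝ) ≤ Real.exp L) (hn' : ∀ p ∈ n.primeFactors, (p : ℝ) ≤ Real.exp L) :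
    ∫ x, D4 (α - z / 2) (β + z / 2) (β - z / 2) (α + z / 2) L x * (ch x m * conj (ch x n)) ∂mu =
      NN (α - z / 2) (β + z / 2) (β - z / 2) (α + z / 2) L * JF m n α β z := by
  have hL0 : 0 < L := by linarith
  have e20 : (1:ℝ) / (20 * L) = 1 / (40 * L) + 1 / (40 * L) := by field_simp; norm_num
  have hz2 : ‖z / 2‖ ≤ 1 / (40 * L) := by
    rw [norm_div, Complex.norm_ofNat]
    have := norm_nonneg z
    linarith
  have ha1 : Adm (α - z / 2) L := ⟨hL, by rw [e20]; exact (norm_sub_le _ _).trans (add_le_add hα hz2)⟩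
  have ha2 : Adm (β + z / 2) L := ⟨hL, by rw [e20]; exact (norm_add_le _ _).trans (add_le_add hβ hz2)⟩
  have hb1 : Adm (β - z / 2) L := ⟨hL, by rw [e20]; exact (norm_sub_le _ _).trans (add_le_add hβ hz2)⟩
  have hb2 : Adm (α + z / 2) L := ⟨hL, by rw [e20]; exact (norm_add_le _ _).trans (add_le_add hα hz2)⟩
  obtain ⟨a1, hA1⟩ : ∃ a, a = α - z / 2 := ⟨_, rfl⟩
  obtain ⟨a2, hA2⟩ : ∃ a, a = β + z / 2 := ⟨_, rfl⟩
  obtain ⟨b1, hB1⟩ : ∃ a, a = β - z / 2 := ⟨_, rfl⟩
  obtain ⟨b2, hB2⟩ : ∃ a, a = α + z / 2 := ⟨_, rfl⟩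
  rw [← hA1] at ha1 ⊢
  rw [← hA2] at ha2 ⊢
  rw [← hB1] at hb1 ⊢
  rw [← hB2] at hb2 ⊢
  have hm0 : m ≠ 0 := by omega
  have hn0 : n ≠ 0 := by omega
  have hsub : ∀ m : ℕ, (∀ p ∈ m.primeFactors, (p : ℝ) ≤ Real.exp L) →
      m.primeFactors ⊆ prm 1 (Real.exp L) := fun m hm p hp => by
    have hpp := Nat.prime_of_mem_primeFactors hp
    exact D2b_mem_prm.2 ⟨hpp, by exact_mod_cast hpp.one_lt, hm p hp⟩
  have hsm := hsub m hm'
  have hsn := hsub n hn'
  obtain ⟨P, hP⟩ : ∃ P, P = prm 1 (Real.exp L) := ⟨_, rfl⟩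
  rw [← hP] at hsm hsn
  have hpr : ∀ p ∈ P, p.Prime := fun p hp => by
    rw [hP] at hp
    exact (D2b_mem_prm.1 hp).1
  obtain ⟨H, hH⟩ : ∃ H : ℕ → Om → ℂ, H = fun p x => R4 (zp a1 p) (zp a2 p) (zp b1 p) (zp b2 p) p x
    * (ch x (p ^ m.factorization p) * conj (ch x (p ^ n.factorization p))) := ⟨_, rfl⟩
  have e1 : ∀ x, D4 a1 a2 b1 b2 L x * (ch x m * conj (ch x n)) = ∏ p ∈ P, H p x := by
    intro x
    unfold D4 ZZ
    rw [D2b_ch_prod x P hsm, D2b_ch_prod x P hsn, map_prod, map_prod, map_prod, ← hP,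
      ← Finset.prod_mul_distrib, ← Finset.prod_mul_distrib, ← Finset.prod_mul_distrib, ← Finset.prod_mul_distrib,
      ← Finset.prod_mul_distrib]
    refine Finset.prod_congr rfl fun p _ => ?_
    rw [hH]
    simp only [R4, map_inv₀, map_sub, map_one, map_mul, D2b_conj_zp]
  have hcH : ∀ p ∈ P, Continuous (H p) := fun p hp => by
    have z1 := D2b_zp_lt ha1 (hpr p hp)
    have z2 := D2b_zp_lt ha2 (hpr p hp)
    have z3 := D2b_zp_lt hb1 (hpr p hp)
    have z4 := D2b_zp_lt hb2 (hpr p hp)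
    have c1 : ∀ w : ℂ, ‖w‖ < 1 → Continuous fun x : Om => (1 - w * ch x p)⁻¹ := fun w hw =>
      (continuous_const.sub (continuous_const.mul (continuous_ch _))).inv₀ fun x => D2a_ne x p hw
    have c2 : ∀ w : ℂ, ‖w‖ < 1 → Continuous fun x : Om => (1 - w * conj (ch x p))⁻¹ := fun w hw =>
      (continuous_const.sub (continuous_const.mul (Complex.continuous_conj.comp (continuous_ch _)))).inv₀
        fun x => D2a_ne' x p hw
    rw [hH]
    exact (((c1 _ z3).mul (c1 _ z4)).mul ((c2 _ z1).mul (c2 _ z2))).mul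
      ((continuous_ch _).mul (Complex.continuous_conj.comp (continuous_ch _)))
  have hdH : ∀ p ∈ P, DependsOn (H p) ({p} : Set ℕ) := fun p hp x y hxy => by
    have d1 := D2b_dep_pow (hpr p hp) 1 hxy
    have d2 := D2b_dep_pow (hpr p hp) (m.factorization p) hxy
    have d3 := D2b_dep_pow (hpr p hp) (n.factorization p) hxy
    simp only [pow_one] at d1 d2 d3
    rw [hH]
    simp only [R4]
    rw [d1, d2, d3]
  simp_rw [e1]
  rw [D2b_prod_int P H hcH hdH]
  -- the right side as a product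
  have hmw : ∀ w : ℂ, (m : ℂ) ^ w = ∏ p ∈ P, ((p : ℂ) ^ w) ^ m.factorization p := by
    intro w
    conv_lhs => rw [D2b_nat_prod P hm0 hsm]
    exact D2b_cpow_prod P _ w
  have hnw : ∀ w : ℂ, (n : ℂ) ^ w = ∏ p ∈ P, ((p : ℂ) ^ w) ^ n.factorization p := by
    intro w
    conv_lhs => rw [D2b_nat_prod P hn0 hsn]
    exact D2b_cpow_prod P _ w
  have hFm : ∏ p ∈ m.primeFactors, Fp α β z p (m.factorization p) =
      ∏ p ∈ P, (if m.factorization p = 0 then 1 else Fp α β z p (m.factorization p)) := by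
    have h1 : ∏ p ∈ m.primeFactors, Fp α β z p (m.factorization p) =
        ∏ p ∈ m.primeFactors, (if m.factorization p = 0 then 1 else Fp α β z p (m.factorization p)) := by
      refine Finset.prod_congr rfl fun p hp => ?_
      have : m.factorization p ≠ 0 := by
        have hpp := Nat.prime_of_mem_primeFactors hp
        exact (hpp.factorization_pos_of_dvd hm0 (Nat.dvd_of_mem_primeFactors hp)).ne'
      rw [if_neg this]
    rw [h1]
    refine Finset.prod_subset hsm fun p _ hp => ?_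
    have : m.factorization p = 0 := by
      rw [← Nat.support_factorization] at hp
      exact Finsupp.notMem_support_iff.1 hp
    rw [if_pos this]
  have hFn : ∏ p ∈ n.primeFactors, Fp β α z p (n.factorization p) =
      ∏ p ∈ P, (if n.factorization p = 0 then 1 else Fp β α z p (n.factorization p)) := by
    have h1 : ∏ p ∈ n.primeFactors, Fp β α z p (n.factorization p) =
        ∏ p ∈ n.primeFactors, (if n.factorization p = 0 then 1 else Fp β α z p (n.factorization p)) := by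
      refine Finset.prod_congr rfl fun p hp => ?_
      have : n.factorization p ≠ 0 := by
        have hpp := Nat.prime_of_mem_primeFactors hp
        exact (hpp.factorization_pos_of_dvd hn0 (Nat.dvd_of_mem_primeFactors hp)).ne'
      rw [if_neg this]
    rw [h1]
    refine Finset.prod_subset hsn fun p _ hp => ?_
    have : n.factorization p = 0 := by
      rw [← Nat.support_factorization] at hp
      exact Finsupp.notMem_support_iff.1 hp
    rw [if_pos this]
  have hJF : JF m n α β z = ∏ p ∈ P, ((zp a1 p ^ m.factorization p * zp b1 p ^ n.factorization p) *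
      ((if m.factorization p = 0 then 1 else Fp α β z p (m.factorization p)) *
        (if n.factorization p = 0 then 1 else Fp β α z p (n.factorization p)))) := by
    unfold JF FF
    have e2 : ((m * n : ℕ) : ℂ) ^ ((z - 1) / 2) = (m : ℂ) ^ ((z - 1) / 2) * (n : ℂ) ^ ((z - 1) / 2) := by
      push_cast
      exact Complex.natCast_mul_natCast_cpow m n _
    have e3 : (m : ℂ) ^ (-α) * (m : ℂ) ^ ((z - 1) / 2) = ∏ p ∈ P, zp a1 p ^ m.factorization p := by
      rw [← Complex.cpow_add _ _ (by exact_mod_cast hm0), hmw]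
      refine Finset.prod_congr rfl fun p _ => ?_
      congr 1
      unfold zp
      congr 1
      rw [hA1]
      ring
    have e4 : (n : ℂ) ^ (-β) * (n : ℂ) ^ ((z - 1) / 2) = ∏ p ∈ P, zp b1 p ^ n.factorization p := by
      rw [← Complex.cpow_add _ _ (by exact_mod_cast hn0), hnw]
      refine Finset.prod_congr rfl fun p _ => ?_
      congr 1
      unfold zp
      congr 1
      rw [hB1]
      ring
    rw [hFm, hFn, e2, Finset.prod_mul_distrib, Finset.prod_mul_distrib, Finset.prod_mul_distrib, ← e3, ← e4]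
    ring
  rw [hJF]
  unfold NN
  rw [← hP, ← Finset.prod_mul_distrib]
  refine Finset.prod_congr rfl fun p hp => ?_
  have hpp := hpr p hp
  have hp0 : p ≠ 0 := hpp.ne_zero
  have z1 := D2b_zp_lt ha1 hpp
  have z2 := D2b_zp_lt ha2 hpp
  have z3 := D2b_zp_lt hb1 hpp
  have z4 := D2b_zp_lt hb2 hpp
  obtain ⟨c0, c1, c2⟩ := J03_circ hpp z1 z2 z3 z4
  have x1 : zp a2 p * zp b2 p = px (α + β) z p := by
    rw [J04_zp_mul _ _ hp0, hA2, hB2]
    unfold px
    congr 1
    ring
  have x2 : zp a1 p * zp b1 p = px (α + β) (-z) p := by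
    rw [J04_zp_mul _ _ hp0, hA1, hB1]
    unfold px
    congr 1
    ring
  have y1 : zp a2 p = py α β z p * zp a1 p := by
    unfold py
    rw [J04_cpow_mul_zp _ _ hp0, hA1, hA2]
    congr 1
    ring
  have y2 : zp b2 p = py β α z p * zp b1 p := by
    unfold py
    rw [J04_cpow_mul_zp _ _ hp0, hB1, hB2]
    congr 1
    ring
  have hone : ∀ x : Om, ch x 1 = 1 := fun x => by
    have := D2a_ch_pow x hpp 0
    rwa [pow_zero, pow_zero] at this
  rw [hH]
  beta_reduce
  by_cases hm1 : m.factorization p = 0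
  · by_cases hn1 : n.factorization p = 0
    · simp only [hm1, hn1, pow_zero, hone, map_one, mul_one, if_true]
      exact c0
    · have hj : 1 ≤ n.factorization p := Nat.one_le_iff_ne_zero.2 hn1
      have h3 := c2 (py β α z p) (n.factorization p) y2 hj
      simp only [hm1, pow_zero, hone, one_mul, if_true, if_neg hn1]
      rw [h3, x1, x2]
      congr 2
      unfold G4 Fp
      rw [add_comm β α]
  · have hn1 : n.factorization p = 0 := by
      by_contra hcon
      have d1 : p ∣ m := (Nat.dvd_of_factorization_pos hm1)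
      have d2 : p ∣ n := (Nat.dvd_of_factorization_pos hcon)
      exact hpp.one_lt.ne' (Nat.eq_one_of_dvd_coprimes hc d1 d2)
    have hj : 1 ≤ m.factorization p := Nat.one_le_iff_ne_zero.2 hm1
    have h3 := c1 (py α β z p) (m.factorization p) y1 hj
    simp only [hn1, pow_zero, hone, map_one, mul_one, if_true, if_neg hm1]
    rw [h3, x1, x2]
    congr 2

end Pool.Agent.LibF4J
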