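import Mathlib
import Pool.Agent.LibF4J.JDefs
import Pool.Agent.LibF4J.J04

/-! Row J05.
For q ∈ S with g = gcd q.1 q.2: ch x q.1 * conj (ch x q.2) = ch x (q.1/g) * conj (ch x (q.2/g)) (ch_mul, |ch x g| = 1), coprime quotients,
their prime factors are among those of q.1, q.2. Linearity of the integral (D4 continuous: products of ZZ, D2b_cont_ZZ, D2b_adm_conj), as in LibTG78.JJ_eq. Shifts: ‖α ± z/2‖ ≤ 1/(20 L).
-/

set_option autoImplicit false

namespace Pool.Agent.LibF4J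

open MeasureTheory Filter Topology Pool.Agent.LibMM99 Pool.Agent.LibTG78 Pool.Agent.LibFG78
open Pool.Agent.LibF4 (JF JD FF DD Fp px py)
open scoped ComplexConjugate

theorem J05_sum {L : ℝ} (hL : 1 ≤ L) {α β z : ℂ} (hα : ‖α‖ ≤ 1 / (40 * L)) (hβ : ‖β‖ ≤ 1 / (40 * L))
    (hz : ‖z‖ ≤ 1 / (40 * L)) (S : Finset (ℕ × ℕ)) (c : ℕ × ℕ → ℂ)
    (hS : ∀ q ∈ S, 1 ≤ q.1 ∧ 1 ≤ q.2 ∧
      (∀ p ∈ q.1.primeFactors, (p : ℝ) ≤ Real.exp L) ∧ (∀ p ∈ q.2.primeFactors, (p : ℝ) ≤ Real.exp L)) :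
    ∫ x, D4 (α - z / 2) (β + z / 2) (β - z / 2) (α + z / 2) L x * ∑ q ∈ S, c q * ch x q.1 * conj (ch x q.2) ∂mu =
      NN (α - z / 2) (β + z / 2) (β - z / 2) (α + z / 2) L * JS S c α β z := by
  have hL0 : 0 < L := by linarith
  have e20 : (1:ℝ) / (20 * L) = 1 / (40 * L) + 1 / (40 * L) := by field_simp; norm_num
  have hz2 : ‖z / 2‖ ≤ 1 / (40 * L) := by
    rw [norm_div, Complex.norm_ofNat]
    have := norm_nonneg z
    linarith
  have ha1 : Adm (α - z / 2) L := ⟨hL, by rw [e20]; exact (norm_sub_le _ _).trans (add_le_add hα hz2)⟩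
  have ha2 : Adm (β + z / 2) L := ⟨hL, by rw [e20]; exact (norm_add_le _ _).trans (add_le_add hβ hz2)⟩
  have hb1 : Adm (β - z / 2) L := ⟨hL, by rw [e20]; exact (norm_sub_le _ _).trans (add_le_add hβ hz2)⟩
  have hb2 : Adm (α + z / 2) L := ⟨hL, by rw [e20]; exact (norm_add_le _ _).trans (add_le_add hα hz2)⟩
  have hcD : Continuous fun x : Om => D4 (α - z / 2) (β + z / 2) (β - z / 2) (α + z / 2) L x := by
    unfold D4
    exact ((D2b_cont_ZZ hb1 _ _).mul (D2b_cont_ZZ hb2 _ _)).mul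
      ((Complex.continuous_conj.comp (D2b_cont_ZZ (D2b_adm_conj ha1) _ _)).mul
        (Complex.continuous_conj.comp (D2b_cont_ZZ (D2b_adm_conj ha2) _ _)))
  have e : ∀ x, D4 (α - z / 2) (β + z / 2) (β - z / 2) (α + z / 2) L x * ∑ q ∈ S, c q * ch x q.1 * conj (ch x q.2)
      = ∑ q ∈ S, c q * (D4 (α - z / 2) (β + z / 2) (β - z / 2) (α + z / 2) L x
        * (ch x q.1 * conj (ch x q.2))) := by
    intro x
    rw [Finset.mul_sum]
    refine Finset.sum_congr rfl fun q _ => ?_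
    ring
  simp_rw [e]
  have hi : ∀ q ∈ S, Integrable (fun x : Om => c q * (D4 (α - z / 2) (β + z / 2) (β - z / 2) (α + z / 2) L x
      * (ch x q.1 * conj (ch x q.2)))) mu := fun q _ =>
    (integrable_of_continuous (hcD.mul
      ((continuous_ch _).mul (Complex.continuous_conj.comp (continuous_ch _))))).const_mul (c q)
  rw [integral_finsetSum S hi]
  unfold JS
  rw [Finset.mul_sum]
  refine Finset.sum_congr rfl fun q hq => ?_
  obtain ⟨h1, h2, h3, h4⟩ := hS q hq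
  rw [integral_const_mul]
  have hg : 0 < Nat.gcd q.1 q.2 := Nat.gcd_pos_of_pos_left _ h1
  have hm1 : 1 ≤ q.1 / Nat.gcd q.1 q.2 := Nat.div_pos (Nat.le_of_dvd h1 (Nat.gcd_dvd_left _ _)) hg
  have hn1 : 1 ≤ q.2 / Nat.gcd q.1 q.2 := Nat.div_pos (Nat.le_of_dvd h2 (Nat.gcd_dvd_right _ _)) hg
  have hred : ∀ x : Om, ch x q.1 * conj (ch x q.2) =
      ch x (q.1 / Nat.gcd q.1 q.2) * conj (ch x (q.2 / Nat.gcd q.1 q.2)) := by
    intro x
    have m1 : ch x q.1 = ch x (Nat.gcd q.1 q.2) * ch x (q.1 / Nat.gcd q.1 q.2) := by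
      rw [← ch_mul x (by omega) (by omega), Nat.mul_div_cancel' (Nat.gcd_dvd_left _ _)]
    have m2 : ch x q.2 = ch x (Nat.gcd q.1 q.2) * ch x (q.2 / Nat.gcd q.1 q.2) := by
      rw [← ch_mul x (by omega) (by omega), Nat.mul_div_cancel' (Nat.gcd_dvd_right _ _)]
    have m3 := D2a_conj_mul x (Nat.gcd q.1 q.2)
    calc ch x q.1 * conj (ch x q.2) = (ch x (Nat.gcd q.1 q.2) * ch x (q.1 / Nat.gcd q.1 q.2)) *
          conj (ch x (Nat.gcd q.1 q.2) * ch x (q.2 / Nat.gcd q.1 q.2)) := by rw [← m1, ← m2]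
      _ = (ch x (Nat.gcd q.1 q.2) * conj (ch x (Nat.gcd q.1 q.2))) *
          (ch x (q.1 / Nat.gcd q.1 q.2) * conj (ch x (q.2 / Nat.gcd q.1 q.2))) := by rw [map_mul]; ring
      _ = _ := by rw [m3, one_mul]
  simp_rw [hred]
  rw [J04_int hL hα hβ hz hm1 hn1 (Nat.coprime_div_gcd_div_gcd hg)
    (fun p hp => h3 p (Nat.primeFactors_mono (Nat.div_dvd_of_dvd (Nat.gcd_dvd_left _ _)) (by omega) hp))
    (fun p hp => h4 p (Nat.primeFactors_mono (Nat.div_dvd_of_dvd (Nat.gcd_dvd_right _ _)) (by omega) hp))]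
  ring

end Pool.Agent.LibF4J
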