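import Mathlib
import Pool.Agent.LibF4J.JDefs

/-! Row J06.
nz4 s 1 (exp L) = ∏ (Gsum 2 (r))⁻¹, Gsum 2 r = (1+r)/(1-r)^3 = (1-r²)/(1-r)^4 (LibFG78.Gsum_two), r = ‖zp s p‖² ≤ 6/(5p) ≤ 3/5 (LibTG78.D3a_small). With w_i z_j = zp a_i p * zp b_j p =
p^(-1-a_i-b_j) and r = p^(-1-2 Re s): |w_i z_j - r| ≤ K (log p / (p L)) with K absolute (|e^u - 1| ≤ 2|u| for |u| ≤ 1: u = -(a_i+b_j-2 Re s) log p, |u| ≤ 4 log p/(20 L) ≤ 1/5), and
|w1 w2 z1 z2 - r²| ≤ K log p/(p L), |1 - w1 w2 z1 z2| ≥ 1/2. So |1 - w_i z_j| ≤ (1-r)(1 + K' log p/(pL)) and |1 - w1w2z1z2| ≥ (1-r²)(1 + K' log p/(pL))⁻¹, i.e.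
Gsum 2 r ≤ (1 + K' log p/(pL))^5 ‖N4‖. Product over p ≤ e^L with ∑ log p/p ≤ L + C (LibMM99.sum_log_prime_le, as in LibTG78.prod_sq_le): C = exp(5 K'(1+C1)).
-/

set_option autoImplicit false

namespace Pool.Agent.LibF4J

open MeasureTheory Filter Topology Pool.Agent.LibMM99 Pool.Agent.LibTG78 Pool.Agent.LibFG78
open Pool.Agent.LibF4 (JF JD FF DD Fp px py)
open scoped ComplexConjugate

theorem J06_mem {L : ℝ} {p : ℕ} (hp : p ∈ prm 1 (Real.exp L)) : 2 ≤ p ∧ (p : ℝ) ≤ Real.exp L := by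
  simp only [prm, Finset.mem_filter, Finset.mem_Icc] at hp
  exact ⟨hp.2.1.two_le, (Nat.le_floor_iff (Real.exp_pos L).le).mp hp.1.2⟩

theorem J06_r {s : ℂ} {L : ℝ} (h : Adm s L) {p : ℕ} (hp : 2 ≤ p) (hpL : (p : ℝ) ≤ Real.exp L) :
    ‖zp s p‖ ^ 2 ≤ 3 / 5 := by
  have h1 := D3a_small h hp hpL
  have hp2 : (2 : ℝ) ≤ p := by exact_mod_cast hp
  refine h1.trans ?_
  rw [div_le_iff₀ (by linarith)]
  linarith

/-- two factors -/
theorem J06_two {L : ℝ} {s a b : ℂ} (hs : Adm s L) (ha : Adm a L) (hb : Adm b L) {p : ℕ} (hp : 2 ≤ p)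
    (hpL : (p : ℝ) ≤ Real.exp L) :
    ‖zp a p * zp b p - ((‖zp s p‖ ^ 2 : ℝ) : ℂ)‖ ≤ Real.log p / p / L / 2 := by
  have hp0 : (0 : ℝ) < p := by
    have : 0 < p := by omega
    exact_mod_cast this
  have hL := hs.1
  have hL0 : 0 < L := by linarith
  have hlog : Real.log p ≤ L := by
    rw [← Real.log_exp L]
    exact Real.log_le_log hp0 hpL
  have hlog0 : 0 ≤ Real.log p := Real.log_natCast_nonneg p
  have e : zp a p * zp b p - ((‖zp s p‖ ^ 2 : ℝ) : ℂ) = ((‖zp s p‖ ^ 2 : ℝ) : ℂ) *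
      (Complex.exp (-((Real.log p : ℝ) : ℂ) * (a + b - ((2 * s.re : ℝ) : ℂ))) - 1) := by
    have e1 : zp a p * zp b p = ((‖zp s p‖ ^ 2 : ℝ) : ℂ) *
        Complex.exp (-((Real.log p : ℝ) : ℂ) * (a + b - ((2 * s.re : ℝ) : ℂ))) := by
      rw [D3a_norm s (by omega), D3a_zp a (by omega), D3a_zp b (by omega), Complex.ofReal_exp,
        ← Complex.exp_add, ← Complex.exp_add]
      congr 1
      push_cast
      ring
    rw [e1]
    ring
  have hu : ‖-((Real.log p : ℝ) : ℂ) * (a + b - ((2 * s.re : ℝ) : ℂ))‖ ≤ Real.log p / (5 * L) := by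
    rw [norm_mul, norm_neg, Complex.norm_real, Real.norm_eq_abs, abs_of_nonneg hlog0]
    have h1 : ‖a + b - ((2 * s.re : ℝ) : ℂ)‖ ≤ 1 / (5 * L) := by
      refine (norm_sub_le _ _).trans ?_
      have h2 : ‖((2 * s.re : ℝ) : ℂ)‖ ≤ 2 * (1 / (20 * L)) := by
        rw [Complex.norm_real, Real.norm_eq_abs, abs_mul, abs_two]
        have := (Complex.abs_re_le_norm s).trans hs.2
        linarith
      have h3 := (norm_add_le a b)
      have h4 := ha.2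
      have h5 := hb.2
      have h6 : 1 / (5 * L) = 4 * (1 / (20 * L)) := by field_simp; norm_num
      rw [h6]
      linarith
    calc Real.log p * ‖a + b - ((2 * s.re : ℝ) : ℂ)‖ ≤ Real.log p * (1 / (5 * L)) :=
          mul_le_mul_of_nonneg_left h1 hlog0
      _ = _ := by ring
  have hu1 : Real.log p / (5 * L) ≤ 1 := by
    rw [div_le_one (by positivity)]
    linarith
  have h2 := Complex.norm_exp_sub_one_le (hu.trans hu1)
  have h3 := D3a_small hs hp hpL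
  rw [e, norm_mul, Complex.norm_real, Real.norm_eq_abs, abs_of_nonneg (by positivity)]
  calc ‖zp s p‖ ^ 2 * _ ≤ (6 / 5 / p) * (2 * (Real.log p / (5 * L))) :=
        mul_le_mul h3 (h2.trans (by linarith)) (norm_nonneg _) (by positivity)
    _ = 24 / 25 * (Real.log p / p / L / 2) := by field_simp; ring
    _ ≤ _ := by
        have : 0 ≤ Real.log p / p / L / 2 := by positivity
        linarith

/-- four factors -/
theorem J06_four {L : ℝ} {s a1 a2 b1 b2 : ℂ} (hs : Adm s L) (ha1 : Adm a1 L) (ha2 : Adm a2 L) (hb1 : Adm b1 L)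
    (hb2 : Adm b2 L) {p : ℕ} (hp : 2 ≤ p) (hpL : (p : ℝ) ≤ Real.exp L) :
    ‖zp a1 p * zp a2 p * (zp b1 p * zp b2 p) - ((‖zp s p‖ ^ 2 : ℝ) : ℂ) ^ 2‖ ≤ 3 / 5 * (Real.log p / p / L) ∧
    ‖zp a1 p * zp a2 p * (zp b1 p * zp b2 p) - ((‖zp s p‖ ^ 2 : ℝ) : ℂ) ^ 2‖ ≤ 29 / 100 := by
  have hp0 : (0 : ℝ) < p := by
    have : 0 < p := by omega
    exact_mod_cast this
  have hL := hs.1
  have hL0 : 0 < L := by linarith
  have hlog : Real.log p ≤ L := by
    rw [← Real.log_exp L]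
    exact Real.log_le_log hp0 hpL
  have hlog0 : 0 ≤ Real.log p := Real.log_natCast_nonneg p
  have e : zp a1 p * zp a2 p * (zp b1 p * zp b2 p) - ((‖zp s p‖ ^ 2 : ℝ) : ℂ) ^ 2 = ((‖zp s p‖ ^ 2 : ℝ) : ℂ) ^ 2 *
      (Complex.exp (-((Real.log p : ℝ) : ℂ) * (a1 + a2 + (b1 + b2) - ((4 * s.re : ℝ) : ℂ))) - 1) := by
    have e1 : zp a1 p * zp a2 p * (zp b1 p * zp b2 p) = ((‖zp s p‖ ^ 2 : ℝ) : ℂ) ^ 2 *
        Complex.exp (-((Real.log p : ℝ) : ℂ) * (a1 + a2 + (b1 + b2) - ((4 * s.re : ℝ) : ℂ))) := by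
      rw [D3a_norm s (by omega), D3a_zp a1 (by omega), D3a_zp a2 (by omega), D3a_zp b1 (by omega),
        D3a_zp b2 (by omega), Complex.ofReal_exp, sq, ← Complex.exp_add, ← Complex.exp_add, ← Complex.exp_add,
        ← Complex.exp_add, ← Complex.exp_add]
      congr 1
      push_cast
      ring
    rw [e1]
    ring
  have hu : ‖-((Real.log p : ℝ) : ℂ) * (a1 + a2 + (b1 + b2) - ((4 * s.re : ℝ) : ℂ))‖ ≤ 2 * Real.log p / (5 * L) := by
    rw [norm_mul, norm_neg, Complex.norm_real, Real.norm_eq_abs, abs_of_nonneg hlog0]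
    have h1 : ‖a1 + a2 + (b1 + b2) - ((4 * s.re : ℝ) : ℂ)‖ ≤ 2 / (5 * L) := by
      refine (norm_sub_le _ _).trans ?_
      have h2 : ‖((4 * s.re : ℝ) : ℂ)‖ ≤ 4 * (1 / (20 * L)) := by
        rw [Complex.norm_real, Real.norm_eq_abs, abs_mul, abs_of_pos (by norm_num : (0:ℝ) < 4)]
        have := (Complex.abs_re_le_norm s).trans hs.2
        linarith
      have h3 := (norm_add_le (a1 + a2) (b1 + b2))
      have h3' := norm_add_le a1 a2
      have h3'' := norm_add_le b1 b2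
      have h4 := ha1.2
      have h5 := hb1.2
      have h4' := ha2.2
      have h5' := hb2.2
      have h6 : 2 / (5 * L) = 8 * (1 / (20 * L)) := by field_simp; norm_num
      rw [h6]
      linarith
    calc Real.log p * ‖a1 + a2 + (b1 + b2) - ((4 * s.re : ℝ) : ℂ)‖ ≤ Real.log p * (2 / (5 * L)) :=
          mul_le_mul_of_nonneg_left h1 hlog0
      _ = _ := by ring
  have hu2 : 2 * Real.log p / (5 * L) ≤ 2 / 5 := by
    rw [div_le_iff₀ (by positivity)]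
    linarith
  have h2 := Complex.norm_exp_sub_one_le (hu.trans (hu2.trans (by norm_num)))
  have h3 := D3a_small hs hp hpL
  have h4 := J06_r hs hp hpL
  have h5 : 0 ≤ ‖zp s p‖ ^ 2 := by positivity
  rw [e, norm_mul, norm_pow, Complex.norm_real, Real.norm_eq_abs, abs_of_nonneg h5]
  constructor
  · calc (‖zp s p‖ ^ 2) ^ 2 * _ ≤ (3 / 5 * (6 / 5 / p)) * (2 * (2 * Real.log p / (5 * L))) := by
          refine mul_le_mul ?_ (h2.trans (by linarith)) (norm_nonneg _) (by positivity)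
          rw [sq]
          exact mul_le_mul h4 h3 h5 (by norm_num)
      _ = 72 / 75 * (3 / 5 * (Real.log p / p / L)) := by field_simp; ring
      _ ≤ _ := by
          have : 0 ≤ 3 / 5 * (Real.log p / p / L) := by positivity
          linarith
  · calc (‖zp s p‖ ^ 2) ^ 2 * _ ≤ (3 / 5) ^ 2 * (2 * (2 / 5)) := by
          refine mul_le_mul (pow_le_pow_left₀ h5 h4 2) (h2.trans (by linarith)) (norm_nonneg _) (by positivity)
      _ ≤ _ := by norm_num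

/-- one prime -/
theorem J06_prime {L : ℝ} {s a1 a2 b1 b2 : ℂ} (hs : Adm s L) (ha1 : Adm a1 L) (ha2 : Adm a2 L) (hb1 : Adm b1 L)
    (hb2 : Adm b2 L) {p : ℕ} (hp : 2 ≤ p) (hpL : (p : ℝ) ≤ Real.exp L) :
    0 < ‖N4 (zp a1 p) (zp a2 p) (zp b1 p) (zp b2 p)‖ ∧
    LibZM.Gsum 2 (‖zp s p‖ ^ 2) ≤ (1 + 2 * (Real.log p / p / L)) ^ 5 * ‖N4 (zp a1 p) (zp a2 p) (zp b1 p) (zp b2 p)‖ := by
  have hL := hs.1
  have hL0 : 0 < L := by linarith
  have hlog0 : 0 ≤ Real.log p := Real.log_natCast_nonneg p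
  obtain ⟨τ, hτ⟩ : ∃ τ, τ = Real.log p / p / L := ⟨_, rfl⟩
  have hτ0 : 0 ≤ τ := by rw [hτ]; positivity
  obtain ⟨r, hr⟩ : ∃ r, r = ‖zp s p‖ ^ 2 := ⟨_, rfl⟩
  have hr0 : 0 ≤ r := by rw [hr]; positivity
  have hr1 : r ≤ 3 / 5 := by rw [hr]; exact J06_r hs hp hpL
  have two : ∀ a b : ℂ, Adm a L → Adm b L → 0 < ‖1 - zp a p * zp b p‖ ∧
      ‖1 - zp a p * zp b p‖ ≤ (1 - r) * (1 + 2 * τ) := by
    intro a b ha hb
    have h1 := J06_two hs ha hb hp hpL
    rw [← hr, ← hτ] at h1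
    constructor
    · have h2 := J06_r ha hp hpL
      have h3 := J06_r hb hp hpL
      have h4 : ‖zp a p * zp b p‖ ≤ 3 / 5 := by
        rw [norm_mul]
        nlinarith [sq_nonneg (‖zp a p‖ - ‖zp b p‖)]
      have h5 : 1 - 3 / 5 ≤ ‖(1 : ℂ) - zp a p * zp b p‖ := by
        have := norm_sub_norm_le (1 : ℂ) (zp a p * zp b p)
        rw [norm_one] at this
        linarith
      linarith
    · have h2 : (1 : ℂ) - zp a p * zp b p = ((1 - r : ℝ) : ℂ) - (zp a p * zp b p - ((r : ℝ) : ℂ)) := by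
        push_cast
        ring
      rw [h2]
      refine (norm_sub_le _ _).trans ?_
      rw [Complex.norm_real, Real.norm_eq_abs, abs_of_nonneg (by linarith)]
      nlinarith
  obtain ⟨p11, q11⟩ := two a1 b1 ha1 hb1
  obtain ⟨p12, q12⟩ := two a1 b2 ha1 hb2
  obtain ⟨p21, q21⟩ := two a2 b1 ha2 hb1
  obtain ⟨p22, q22⟩ := two a2 b2 ha2 hb2
  obtain ⟨f1, f2⟩ := J06_four hs ha1 ha2 hb1 hb2 hp hpL
  rw [← hr, ← hτ] at f1
  rw [← hr] at f2
  obtain ⟨X, hX⟩ : ∃ X, X = zp a1 p * zp a2 p * (zp b1 p * zp b2 p) := ⟨_, rfl⟩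
  rw [← hX] at f1 f2
  have f3 : ((1 - r ^ 2 : ℝ) : ℂ) = (1 - X) + (X - ((r : ℝ) : ℂ) ^ 2) := by
    push_cast
    ring
  have f4 : 1 - r ^ 2 ≤ ‖1 - X‖ + ‖X - ((r : ℝ) : ℂ) ^ 2‖ := by
    have h1 : ‖((1 - r ^ 2 : ℝ) : ℂ)‖ = 1 - r ^ 2 := by
      rw [Complex.norm_real, Real.norm_eq_abs, abs_of_nonneg (by nlinarith)]
    rw [← h1, f3]
    exact norm_add_le _ _
  have f5 : 35 / 100 ≤ ‖1 - X‖ := by nlinarith
  have f6 : 1 - r ^ 2 ≤ ‖1 - X‖ * (1 + 2 * τ) := by nlinarith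
  have hN : ‖N4 (zp a1 p) (zp a2 p) (zp b1 p) (zp b2 p)‖ = ‖1 - X‖ /
      ((‖1 - zp a1 p * zp b1 p‖ * ‖1 - zp a1 p * zp b2 p‖) *
        (‖1 - zp a2 p * zp b1 p‖ * ‖1 - zp a2 p * zp b2 p‖)) := by
    unfold N4
    rw [norm_div, norm_mul, norm_mul, norm_mul, hX]
  rw [← hr, ← hτ, hN]
  constructor
  · have : 0 < ‖1 - X‖ := by linarith
    positivity
  · rw [Gsum_two hr0 (by linarith), ← mul_div_assoc, div_le_div_iff₀ (by
      have : 0 < 1 - r := by linarith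
      positivity) (by positivity)]
    have h1r : 0 < 1 - r := by linarith
    have hq : (‖1 - zp a1 p * zp b1 p‖ * ‖1 - zp a1 p * zp b2 p‖) *
        (‖1 - zp a2 p * zp b1 p‖ * ‖1 - zp a2 p * zp b2 p‖) ≤
        (((1 - r) * (1 + 2 * τ)) * ((1 - r) * (1 + 2 * τ))) * (((1 - r) * (1 + 2 * τ)) * ((1 - r) * (1 + 2 * τ))) := by
      refine mul_le_mul (mul_le_mul q11 q12 p12.le (by positivity)) (mul_le_mul q21 q22 p22.le (by positivity))
        (by positivity) (by positivity)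
    calc (1 + r) * _ ≤ (1 + r) * ((((1 - r) * (1 + 2 * τ)) * ((1 - r) * (1 + 2 * τ))) *
          (((1 - r) * (1 + 2 * τ)) * ((1 - r) * (1 + 2 * τ)))) :=
          mul_le_mul_of_nonneg_left hq (by linarith)
      _ = (1 - r ^ 2) * ((1 + 2 * τ) ^ 4 * (1 - r) ^ 3) := by ring
      _ ≤ (‖1 - X‖ * (1 + 2 * τ)) * ((1 + 2 * τ) ^ 4 * (1 - r) ^ 3) :=
          mul_le_mul_of_nonneg_right f6 (by positivity)
      _ = _ := by ring

/-- J06: comparison of the normalisations -/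
theorem J06_norm : ∃ C : ℝ, 1 ≤ C ∧ ∀ (L : ℝ) (s a1 a2 b1 b2 : ℂ), Adm s L → Adm a1 L → Adm a2 L → Adm b1 L → Adm b2 L →
    0 < ‖NN a1 a2 b1 b2 L‖ ∧ 1 ≤ C * (nz4 s 1 (Real.exp L) * ‖NN a1 a2 b1 b2 L‖) := by
  obtain ⟨C1, hC1, hM⟩ := sum_log_prime_le
  refine ⟨Real.exp (10 * (1 + C1)), Real.one_le_exp (by positivity), ?_⟩
  intro L s a1 a2 b1 b2 hs ha1 ha2 hb1 hb2
  have hL := hs.1
  have hL0 : 0 < L := by linarith
  have hpr : ∀ p ∈ prm 1 (Real.exp L), 0 < ‖N4 (zp a1 p) (zp a2 p) (zp b1 p) (zp b2 p)‖ ∧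
      LibZM.Gsum 2 (‖zp s p‖ ^ 2) ≤ (1 + 2 * (Real.log p / p / L)) ^ 5 *
        ‖N4 (zp a1 p) (zp a2 p) (zp b1 p) (zp b2 p)‖ :=
    fun p hp => J06_prime hs ha1 ha2 hb1 hb2 (J06_mem hp).1 (J06_mem hp).2
  constructor
  · unfold NN
    rw [norm_prod]
    exact Finset.prod_pos fun p hp => (hpr p hp).1
  · have hG : ∀ p ∈ prm 1 (Real.exp L), 0 < LibZM.Gsum 2 (‖zp s p‖ ^ 2) := fun p hp => by
      have h1 := Gsum_two_pos (x := ‖zp s p‖ ^ 2) (by positivity)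
        (by linarith [J06_r hs (J06_mem hp).1 (J06_mem hp).2])
      linarith
    have h1 : ∏ p ∈ prm 1 (Real.exp L), (1 + 2 * (Real.log p / p / L)) ^ 5 ≤ Real.exp (10 * (1 + C1)) := by
      calc ∏ p ∈ prm 1 (Real.exp L), (1 + 2 * (Real.log p / p / L)) ^ 5 ≤
            ∏ p ∈ prm 1 (Real.exp L), Real.exp (10 / L * (Real.log p / p)) := by
            refine Finset.prod_le_prod (fun p _ => ?_) fun p _ => ?_
            · have : 0 ≤ Real.log p / p / L :=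
                div_nonneg (div_nonneg (Real.log_natCast_nonneg p) (Nat.cast_nonneg p)) hL0.le
              positivity
            · have h0 : 0 ≤ Real.log p / p / L :=
                div_nonneg (div_nonneg (Real.log_natCast_nonneg p) (Nat.cast_nonneg p)) hL0.le
              have h2 : 1 + 2 * (Real.log p / p / L) ≤ Real.exp (2 * (Real.log p / p / L)) := by
                rw [add_comm]
                exact Real.add_one_le_exp _
              calc (1 + 2 * (Real.log p / p / L)) ^ 5 ≤ Real.exp (2 * (Real.log p / p / L)) ^ 5 :=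
                    pow_le_pow_left₀ (by positivity) h2 5
                _ = Real.exp (10 / L * (Real.log p / p)) := by
                    rw [← Real.exp_nat_mul]
                    congr 1
                    push_cast
                    ring
        _ = Real.exp (10 / L * ∑ p ∈ prm 1 (Real.exp L), Real.log p / p) := by
            rw [← Real.exp_sum, Finset.mul_sum]
        _ ≤ Real.exp (10 * (1 + C1)) := by
            refine Real.exp_le_exp.mpr ?_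
            have h3 := hM (Real.exp L) (Real.one_le_exp hL0.le)
            rw [Real.log_exp] at h3
            have h6 : L + C1 ≤ L * (1 + C1) := by nlinarith
            calc 10 / L * ∑ p ∈ prm 1 (Real.exp L), Real.log p / p ≤ 10 / L * (L * (1 + C1)) :=
                  mul_le_mul_of_nonneg_left (h3.trans h6) (by positivity)
              _ = 10 * (1 + C1) := by field_simp
    have h2 : ∏ p ∈ prm 1 (Real.exp L), LibZM.Gsum 2 (‖zp s p‖ ^ 2) ≤
        (∏ p ∈ prm 1 (Real.exp L), (1 + 2 * (Real.log p / p / L)) ^ 5) * ‖NN a1 a2 b1 b2 L‖ := by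
      unfold NN
      rw [norm_prod, ← Finset.prod_mul_distrib]
      exact Finset.prod_le_prod (fun p hp => (hG p hp).le) fun p hp => (hpr p hp).2
    have h3 : 0 < ∏ p ∈ prm 1 (Real.exp L), LibZM.Gsum 2 (‖zp s p‖ ^ 2) := Finset.prod_pos hG
    have h4 : nz4 s 1 (Real.exp L) = (∏ p ∈ prm 1 (Real.exp L), LibZM.Gsum 2 (‖zp s p‖ ^ 2))⁻¹ := by
      unfold nz4
      rw [Finset.prod_inv_distrib]
    rw [h4]
    have h5 : ∏ p ∈ prm 1 (Real.exp L), LibZM.Gsum 2 (‖zp s p‖ ^ 2) ≤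
        Real.exp (10 * (1 + C1)) * ‖NN a1 a2 b1 b2 L‖ :=
      h2.trans (mul_le_mul_of_nonneg_right h1 (norm_nonneg _))
    calc (1 : ℝ) = (∏ p ∈ prm 1 (Real.exp L), LibZM.Gsum 2 (‖zp s p‖ ^ 2))⁻¹ *
          ∏ p ∈ prm 1 (Real.exp L), LibZM.Gsum 2 (‖zp s p‖ ^ 2) := (inv_mul_cancel₀ h3.ne').symm
      _ ≤ (∏ p ∈ prm 1 (Real.exp L), LibZM.Gsum 2 (‖zp s p‖ ^ 2))⁻¹ *
          (Real.exp (10 * (1 + C1)) * ‖NN a1 a2 b1 b2 L‖) :=
          mul_le_mul_of_nonneg_left h5 (inv_nonneg.2 h3.le)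
      _ = _ := by ring

end Pool.Agent.LibF4J
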