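import Mathlib
import Pool.Agent.LibF4J.JDefs
import Pool.Agent.LibF4J.J05
import Pool.Agent.LibF4J.J06

/-! Row J07.
As LibTG78.JJ_bound (D3b): ‖NN‖ * ‖JS‖ = ‖∫ D4 * Φ‖ ≤ ∫ |Φ| ‖D4‖ and ‖D4‖ = abcd ≤ (a⁴+b⁴+c⁴+d⁴)/4, a = ‖ZZ b1‖ etc.; integral_nu (LibFG78.B05; definition of nu4):
∫|Φ| ‖ZZ s‖⁴ = (∫|Φ| d nu4 s)/nz4 s ≤ A / nz4 s ≤ C A ‖NN‖ by J06_norm for s = b1, b2, conj a1, conj a2 (all Adm; D3b_adm_conj). Divide by ‖NN‖ > 0 (J06_norm).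
-/

set_option autoImplicit false

namespace Pool.Agent.LibF4J

open MeasureTheory Filter Topology Pool.Agent.LibMM99 Pool.Agent.LibTG78 Pool.Agent.LibFG78
open Pool.Agent.LibF4 (JF JD FF DD Fp px py)
open scoped ComplexConjugate

theorem J07_adm {L : ℝ} (hL : 1 ≤ L) {u v : ℂ} (hu : ‖u‖ ≤ 1 / (40 * L)) (hv : ‖v‖ ≤ 1 / (40 * L)) :
    Adm (u + v / 2) L ∧ Adm (u - v / 2) L := by
  have hL0 : 0 < L := by linarith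
  have h1 : ‖v / 2‖ ≤ 1 / (40 * L) := by
    rw [norm_div]
    have h2 : ‖(2 : ℂ)‖ = 2 := by norm_num
    rw [h2]
    have := norm_nonneg v
    linarith
  have h3 : 1 / (40 * L) + 1 / (40 * L) = 1 / (20 * L) := by
    field_simp
    norm_num
  exact ⟨⟨hL, (norm_add_le _ _).trans (by linarith)⟩, ⟨hL, (norm_sub_le _ _).trans (by linarith)⟩⟩

theorem J07_amgm (a b c d : ℝ) :
    a * b * (c * d) ≤ 1 / 4 * (a ^ 4 + b ^ 4 + (c ^ 4 + d ^ 4)) := by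
  nlinarith [sq_nonneg (a * b - c * d), sq_nonneg (a ^ 2 - b ^ 2), sq_nonneg (c ^ 2 - d ^ 2)]

theorem J07_bound : ∃ C : ℝ, 1 ≤ C ∧ ∀ (L A : ℝ) (S : Finset (ℕ × ℕ)) (c : ℕ × ℕ → ℂ) (Φ : Om → ℝ), 1 ≤ L → Continuous Φ →
    (∀ q ∈ S, 1 ≤ q.1 ∧ 1 ≤ q.2 ∧
      (∀ p ∈ q.1.primeFactors, (p : ℝ) ≤ Real.exp L) ∧ (∀ p ∈ q.2.primeFactors, (p : ℝ) ≤ Real.exp L)) →
    (∀ x, ((Φ x : ℝ) : ℂ) = ∑ q ∈ S, c q * ch x q.1 * conj (ch x q.2)) →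
    (∀ s : ℂ, Adm s L → ∫ x, |Φ x| ∂(nu4 s L) ≤ A) →
    ∀ α β z : ℂ, ‖α‖ ≤ 1 / (40 * L) → ‖β‖ ≤ 1 / (40 * L) → ‖z‖ ≤ 1 / (40 * L) → ‖JS S c α β z‖ ≤ C * A := by
  obtain ⟨C, hC, hnorm⟩ := J06_norm
  refine ⟨C, hC, ?_⟩
  intro L A S c Φ hL hΦ hS hrep hA α β z hα hβ hz
  obtain ⟨hb2, ha1⟩ := J07_adm hL hα hz
  obtain ⟨ha2, hb1⟩ := J07_adm hL hβ hz
  have ha1' := D3b_adm_conj ha1
  have ha2' := D3b_adm_conj ha2
  have key := J05_sum hL hα hβ hz S c hS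
  set a1 := α - z / 2 with e1
  set a2 := β + z / 2 with e2
  set b1 := β - z / 2 with e3
  set b2 := α + z / 2 with e4
  -- one fourth moment
  have hI : ∀ s, Adm s L → ∫ x, ‖ZZ s 1 (Real.exp L) x‖ ^ 4 * |Φ x| ∂mu ≤
      C * ‖NN a1 a2 b1 b2 L‖ * A := by
    intro s hs
    obtain ⟨h1, h2⟩ := hnorm L s a1 a2 b1 b2 hs ha1 ha2 hb1 hb2
    have h3 := hA s hs
    rw [LibFG78.integral_nu hs hΦ.abs] at h3
    set I := ∫ x, ‖ZZ s 1 (Real.exp L) x‖ ^ 4 * |Φ x| ∂mu with hIdef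
    have hI0 : 0 ≤ I := integral_nonneg fun x => by positivity
    calc I = 1 * I := (one_mul _).symm
      _ ≤ C * (nz4 s 1 (Real.exp L) * ‖NN a1 a2 b1 b2 L‖) * I := mul_le_mul_of_nonneg_right h2 hI0
      _ = C * ‖NN a1 a2 b1 b2 L‖ * (nz4 s 1 (Real.exp L) * I) := by ring
      _ ≤ C * ‖NN a1 a2 b1 b2 L‖ * A := mul_le_mul_of_nonneg_left h3 (by positivity)
  have hint : ∀ s, Adm s L → Integrable (fun x => ‖ZZ s 1 (Real.exp L) x‖ ^ 4 * |Φ x|) mu :=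
    fun s hs => integrable_of_continuous (((D3b_cont hs).norm.pow 4).mul hΦ.abs)
  have h1 : ‖∫ x, D4 a1 a2 b1 b2 L x * ∑ q ∈ S, c q * ch x q.1 * conj (ch x q.2) ∂mu‖ ≤
      1 / 4 * ((∫ x, ‖ZZ b1 1 (Real.exp L) x‖ ^ 4 * |Φ x| ∂mu) +
        (∫ x, ‖ZZ b2 1 (Real.exp L) x‖ ^ 4 * |Φ x| ∂mu) +
        ((∫ x, ‖ZZ (conj a1) 1 (Real.exp L) x‖ ^ 4 * |Φ x| ∂mu) +
          ∫ x, ‖ZZ (conj a2) 1 (Real.exp L) x‖ ^ 4 * |Φ x| ∂mu)) := by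
    have i1 := hint b1 hb1
    have i2 := hint b2 hb2
    have i3 := hint (conj a1) ha1'
    have i4 := hint (conj a2) ha2'
    have i12 : Integrable (fun x => ‖ZZ b1 1 (Real.exp L) x‖ ^ 4 * |Φ x| +
        ‖ZZ b2 1 (Real.exp L) x‖ ^ 4 * |Φ x|) mu := i1.add i2
    have i34 : Integrable (fun x => ‖ZZ (conj a1) 1 (Real.exp L) x‖ ^ 4 * |Φ x| +
        ‖ZZ (conj a2) 1 (Real.exp L) x‖ ^ 4 * |Φ x|) mu := i3.add i4
    rw [← integral_add i1 i2, ← integral_add i3 i4, ← integral_add i12 i34,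
      ← integral_const_mul]
    refine norm_integral_le_of_norm_le ((i12.add i34).const_mul _)
      (Eventually.of_forall fun x => ?_)
    rw [← hrep x, norm_mul, Complex.norm_real, Real.norm_eq_abs]
    unfold D4
    rw [norm_mul, norm_mul, norm_mul, RCLike.norm_conj, RCLike.norm_conj]
    have e5 : 0 ≤ |Φ x| := abs_nonneg _
    have e6 := J07_amgm ‖ZZ b1 1 (Real.exp L) x‖ ‖ZZ b2 1 (Real.exp L) x‖
      ‖ZZ (conj a1) 1 (Real.exp L) x‖ ‖ZZ (conj a2) 1 (Real.exp L) x‖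
    refine (mul_le_mul_of_nonneg_right e6 e5).trans (le_of_eq ?_)
    ring
  rw [key, norm_mul] at h1
  have hN := (hnorm L b1 a1 a2 b1 b2 hb1 ha1 ha2 hb1 hb2).1
  have h2 := hI b1 hb1
  have h3 := hI b2 hb2
  have h4 := hI (conj a1) ha1'
  have h5 := hI (conj a2) ha2'
  have h6 : ‖NN a1 a2 b1 b2 L‖ * ‖JS S c α β z‖ ≤ ‖NN a1 a2 b1 b2 L‖ * (C * A) := by
    linarith
  exact le_of_mul_le_mul_left h6 hN

end Pool.Agent.LibF4J
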