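import Mathlib
import Pool.Agent.LibF4J.JDefs
import Pool.Agent.LibF4J.J05
import Pool.Agent.LibF4J.J06

/-! Row J08.
J05_sum at α = β = z = 0 (all shifts 0 - 0/2 = 0, simp): D4 0 0 0 0 L x = ‖ZZ 0 1 (exp L) x‖^4 (as a complex number: z * z * (conj z * conj z)), NN 0 0 0 0 L = ((nz4 0 1 (exp L))⁻¹ : ℝ):
zp 0 p = p^(-1/2) is real positive (LibTG78.D3a_sq at s = 0, or directly), N4 w w w w = (1-w⁴)/(1-w²)^4 = (1+w²)/(1-w²)^3 = Gsum 2 (‖w‖²) (LibFG78.Gsum_two). Then LibFG78.integral_nu.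
-/

set_option autoImplicit false

namespace Pool.Agent.LibF4J

open MeasureTheory Filter Topology Pool.Agent.LibMM99 Pool.Agent.LibTG78 Pool.Agent.LibFG78
open Pool.Agent.LibF4 (JF JD FF DD Fp px py)
open scoped ComplexConjugate

theorem J08_zp {p : ℕ} (hp : 0 < p) : zp 0 p = ((‖zp 0 p‖ : ℝ) : ℂ) := by
  unfold zp
  rw [Complex.norm_natCast_cpow_of_pos hp, sub_zero]
  have h1 : (-(1 / 2 : ℂ)) = ((-(1 / 2) : ℝ) : ℂ) := by push_cast; ring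
  rw [h1, Complex.ofReal_re, Complex.ofReal_cpow (Nat.cast_nonneg p)]
  push_cast
  rfl

theorem J08_N4 {r : ℝ} (hr0 : 0 ≤ r) (hr : r < 1) :
    N4 (r : ℂ) (r : ℂ) (r : ℂ) (r : ℂ) = ((LibZM.Gsum 2 (r ^ 2) : ℝ) : ℂ) := by
  have h2 : r ^ 2 < 1 := by nlinarith
  rw [Gsum_two (by positivity) h2]
  unfold N4
  have h3 : (1 - r ^ 2 : ℝ) ≠ 0 := by
    intro h0
    linarith
  have h4 : ((1 - r ^ 2 : ℝ) : ℂ) ≠ 0 := by exact_mod_cast h3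
  push_cast at h4 ⊢
  rw [div_eq_div_iff]
  · ring
  · have e : (1 - (r : ℂ) * r) = 1 - (r : ℂ) ^ 2 := by ring
    rw [e]
    exact mul_ne_zero (mul_ne_zero h4 h4) (mul_ne_zero h4 h4)
  · exact pow_ne_zero _ h4

theorem J08_NN {L : ℝ} (h : Adm 0 L) : NN 0 0 0 0 L * ((nz4 0 1 (Real.exp L) : ℝ) : ℂ) = 1 := by
  unfold NN nz4
  rw [Complex.ofReal_prod, ← Finset.prod_mul_distrib]
  refine Finset.prod_eq_one fun p hp => ?_
  have hpp := (D2b_mem_prm.1 hp).1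
  have h1 := D2b_zp_lt h hpp
  have h0 : 0 ≤ ‖zp 0 p‖ := norm_nonneg _
  have h2 : ‖zp 0 p‖ ^ 2 < 1 := by nlinarith
  have h3 : LibZM.Gsum 2 (‖zp 0 p‖ ^ 2) ≠ 0 := by
    rw [Gsum_two (by positivity) h2]
    have : 0 < 1 - ‖zp 0 p‖ ^ 2 := by linarith
    positivity
  rw [show N4 (zp 0 p) (zp 0 p) (zp 0 p) (zp 0 p) = ((LibZM.Gsum 2 (‖zp 0 p‖ ^ 2) : ℝ) : ℂ) by
    rw [← J08_N4 h0 h1, ← J08_zp hpp.pos]]
  rw [← Complex.ofReal_mul, mul_inv_cancel₀ h3, Complex.ofReal_one]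

theorem J08_zero {L : ℝ} (hL : 1 ≤ L) (S : Finset (ℕ × ℕ)) (c : ℕ × ℕ → ℂ) (Φ : Om → ℝ) (hΦ : Continuous Φ)
    (hS : ∀ q ∈ S, 1 ≤ q.1 ∧ 1 ≤ q.2 ∧
      (∀ p ∈ q.1.primeFactors, (p : ℝ) ≤ Real.exp L) ∧ (∀ p ∈ q.2.primeFactors, (p : ℝ) ≤ Real.exp L))
    (hrep : ∀ x, ((Φ x : ℝ) : ℂ) = ∑ q ∈ S, c q * ch x q.1 * conj (ch x q.2)) :
    JS S c 0 0 0 = ((∫ x, Φ x ∂(nu4 0 L) : ℝ) : ℂ) := by
  have hL0 : 0 < L := by linarith
  have hadm : Adm 0 L := ⟨hL, by rw [norm_zero]; positivity⟩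
  have hn : ‖(0 : ℂ)‖ ≤ 1 / (40 * L) := by rw [norm_zero]; positivity
  have h1 := J05_sum hL hn hn hn S c hS
  simp only [zero_div, sub_zero, add_zero] at h1
  have h2 := J08_NN hadm
  rw [LibFG78.integral_nu hadm hΦ, Complex.ofReal_mul, ← integral_complex_ofReal]
  have h3 : ∫ x, ((‖ZZ 0 1 (Real.exp L) x‖ ^ 4 * Φ x : ℝ) : ℂ) ∂mu =
      NN 0 0 0 0 L * JS S c 0 0 0 := by
    rw [← h1]
    refine integral_congr_ae (Eventually.of_forall fun x => ?_)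
    simp only []
    rw [← hrep x]
    unfold D4
    rw [map_zero, Complex.ofReal_mul]
    congr 1
    have h4 : ((‖ZZ 0 1 (Real.exp L) x‖ ^ 2 : ℝ) : ℂ) =
        ZZ 0 1 (Real.exp L) x * conj (ZZ 0 1 (Real.exp L) x) := by
      rw [Complex.mul_conj, Complex.normSq_eq_norm_sq]
    calc ((‖ZZ 0 1 (Real.exp L) x‖ ^ 4 : ℝ) : ℂ) = ((‖ZZ 0 1 (Real.exp L) x‖ ^ 2 : ℝ) : ℂ) ^ 2 := by
          push_cast
          ring
      _ = _ := by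
          rw [h4]
          ring
  rw [h3, ← mul_assoc, mul_comm _ (NN 0 0 0 0 L), h2, one_mul]

end Pool.Agent.LibF4J
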