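import Mathlib
import Pool.Agent.LibF4J.JDefs

/-! Row J09.
Unfold: X = p^(-(1+z)) = px (z/2+z/2) 0 p = px (z/2+z/2) (-0) p, py (z/2) (z/2) 0 p = p^0 = 1, so Fp = ((j+1) - 2 X j + X² (j-1))/(1-X²) = 1 + j (1-X)/(1+X) for j ≥ 1
(Finset.sum_const, card_range; |X| < 1 so 1 - X² ≠ 0). Powers: m^(-z/2) n^(-z/2) (mn)^(-1/2) = (mn)^(-(1+z)/2). primeFactors of m n = disjoint union for coprime m, n (Nat.Coprime.primeFactors_mul or
Nat.primeFactors_mul + Finset.prod_union with Nat.Coprime.disjoint_primeFactors), factorization of m n at p ∣ m is that of m (Nat.factorization_eq_of_coprime_left or similar).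
-/

set_option autoImplicit false

namespace Pool.Agent.LibF4J

open MeasureTheory Filter Topology Pool.Agent.LibMM99 Pool.Agent.LibTG78 Pool.Agent.LibFG78
open Pool.Agent.LibF4 (JF JD FF DD Fp px py)
open scoped ComplexConjugate

theorem J09_ne {z : ℂ} (hz : ‖z‖ ≤ 1 / 4) {p : ℕ} (hp : p.Prime) :
    1 + (p : ℂ) ^ (-(1 + z)) ≠ 0 ∧ 1 - (p : ℂ) ^ (-(1 + z)) ≠ 0 := by
  have h1 : ‖(p : ℂ) ^ (-(1 + z))‖ < 1 := by
    rw [Complex.norm_natCast_cpow_of_pos hp.pos]
    refine Real.rpow_lt_one_of_one_lt_of_neg (by exact_mod_cast hp.one_lt) ?_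
    have h3 := (abs_le.1 ((Complex.abs_re_le_norm z).trans hz)).1
    simp only [Complex.neg_re, Complex.add_re, Complex.one_re]
    linarith
  constructor
  · intro h
    have h2 : (p : ℂ) ^ (-(1 + z)) = -1 := by linear_combination h
    rw [h2, norm_neg, norm_one] at h1
    exact lt_irrefl _ h1
  · intro h
    have h2 : (p : ℂ) ^ (-(1 + z)) = 1 := by linear_combination -h
    rw [h2, norm_one] at h1
    exact lt_irrefl _ h1

theorem J09_local {z : ℂ} (hz : ‖z‖ ≤ 1 / 4) {p : ℕ} (hp : p.Prime) {j : ℕ} (hj : 1 ≤ j) :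
    Fp (z / 2) (z / 2) 0 p j =
      1 + (j : ℂ) * (1 - (p : ℂ) ^ (-(1 + z))) / (1 + (p : ℂ) ^ (-(1 + z))) := by
  obtain ⟨h1, h2⟩ := J09_ne hz hp
  have e1 : py (z / 2) (z / 2) 0 p = 1 := by
    unfold py
    rw [show (-(z / 2 - z / 2 + 0) : ℂ) = 0 by ring, Complex.cpow_zero]
  have e2 : px (z / 2 + z / 2) 0 p = (p : ℂ) ^ (-(1 + z)) := by
    unfold px
    congr 1
    ring
  have e3 : px (z / 2 + z / 2) (-0) p = (p : ℂ) ^ (-(1 + z)) := by
    unfold px
    congr 1
    ring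
  obtain ⟨k, rfl⟩ : ∃ k, j = k + 1 := ⟨j - 1, by omega⟩
  unfold Fp
  rw [e1, e2, e3]
  generalize (p : ℂ) ^ (-(1 + z)) = X at h1 h2
  simp only [one_pow, Finset.sum_const, Finset.card_range, nsmul_eq_mul, mul_one, Nat.add_sub_cancel]
  have h3 : 1 - X * X ≠ 0 := by
    have : 1 - X * X = (1 + X) * (1 - X) := by ring
    rw [this]
    exact mul_ne_zero h1 h2
  have h4 : 1 + ((k + 1 : ℕ) : ℂ) * (1 - X) / (1 + X) = (1 + X + ((k + 1 : ℕ) : ℂ) * (1 - X)) / (1 + X) := by
    field_simp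
  rw [h4, div_eq_div_iff h3 h1]
  push_cast
  ring

/-- J09: the diagonal functional is a special case -/
theorem J09_diag {m n : ℕ} (hm : 1 ≤ m) (hn : 1 ≤ n) (hc : Nat.Coprime m n) {z : ℂ} (hz : ‖z‖ ≤ 1 / 4) :
    JD m n z = JF m n (z / 2) (z / 2) 0 := by
  have hm0 : m ≠ 0 := by omega
  have hn0 : n ≠ 0 := by omega
  have hmc : (m : ℂ) ≠ 0 := by exact_mod_cast hm0
  have hnc : (n : ℂ) ≠ 0 := by exact_mod_cast hn0
  have hF : DD m n z = FF m n (z / 2) (z / 2) 0 := by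
    unfold DD FF
    rw [hc.primeFactors_mul, Finset.prod_union hc.disjoint_primeFactors]
    congr 1
    · refine Finset.prod_congr rfl fun p hp => ?_
      have hpp := Nat.prime_of_mem_primeFactors hp
      have hd : p ∣ m := Nat.dvd_of_mem_primeFactors hp
      have hnd : ¬ p ∣ n := fun h => hpp.one_lt.ne' (Nat.eq_one_of_dvd_coprimes hc hd h)
      have e : (m * n).factorization p = m.factorization p := by
        rw [Nat.factorization_mul hm0 hn0, Finsupp.add_apply, Nat.factorization_eq_zero_of_not_dvd hnd, add_zero]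
      rw [e, J09_local hz hpp (hpp.factorization_pos_of_dvd hm0 hd)]
    · refine Finset.prod_congr rfl fun p hp => ?_
      have hpp := Nat.prime_of_mem_primeFactors hp
      have hd : p ∣ n := Nat.dvd_of_mem_primeFactors hp
      have hnd : ¬ p ∣ m := fun h => hpp.one_lt.ne' (Nat.eq_one_of_dvd_coprimes hc h hd)
      have e : (m * n).factorization p = n.factorization p := by
        rw [Nat.factorization_mul hm0 hn0, Finsupp.add_apply, Nat.factorization_eq_zero_of_not_dvd hnd, zero_add]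
      rw [e, J09_local hz hpp (hpp.factorization_pos_of_dvd hn0 hd)]
  unfold JD JF
  rw [hF]
  congr 1
  push_cast
  rw [Complex.natCast_mul_natCast_cpow, Complex.natCast_mul_natCast_cpow]
  have e1 : (m : ℂ) ^ (-(1 + z) / 2) = (m : ℂ) ^ (-(z / 2)) * (m : ℂ) ^ ((0 - 1 : ℂ) / 2) := by
    rw [← Complex.cpow_add _ _ hmc]
    congr 1
    ring
  have e2 : (n : ℂ) ^ (-(1 + z) / 2) = (n : ℂ) ^ (-(z / 2)) * (n : ℂ) ^ ((0 - 1 : ℂ) / 2) := by
    rw [← Complex.cpow_add _ _ hnc]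
    congr 1
    ring
  rw [e1, e2]
  ring

end Pool.Agent.LibF4J
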