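import Mathlib
import Pool.Agent.LibF4J.JDefs

/-! Row J10.
Products and quotients: 1 + p^(-(1+z)) ≠ 0 since ‖p^(-(1+z))‖ = p^(-(1+Re z)) < 1 for Re z > -1/2, p ≥ 2; const_cpow with a nonzero base.
-/

set_option autoImplicit false

namespace Pool.Agent.LibF4J

open MeasureTheory Filter Topology Pool.Agent.LibMM99 Pool.Agent.LibTG78 Pool.Agent.LibFG78
open Pool.Agent.LibF4 (JF JD FF DD Fp px py)
open scoped ComplexConjugate

/-- J10: regularity -/
theorem J10_diff {m n : ℕ} (hm : 1 ≤ m) (hn : 1 ≤ n) : DifferentiableOn ℂ (fun z => JD m n z) (Metric.ball 0 (1 / 2)) := by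
  intro z hz
  refine DifferentiableAt.differentiableWithinAt ?_
  have hz' : ‖z‖ < 1 / 2 := by simpa using hz
  have hmn : ((m * n : ℕ) : ℂ) ≠ 0 := by
    have : m * n ≠ 0 := by positivity
    exact_mod_cast this
  unfold JD DD
  have hpow : ∀ p : ℕ, (p : ℂ) ≠ 0 → DifferentiableAt ℂ (fun z : ℂ => (p : ℂ) ^ (-(1 + z))) z := fun p hp =>
    (DifferentiableAt.const_cpow (by fun_prop) (Or.inl hp))
  refine DifferentiableAt.mul (DifferentiableAt.const_cpow (by fun_prop) (Or.inl hmn)) ?_
  refine DifferentiableAt.fun_finset_prod fun p hp => ?_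
  have hpp := Nat.prime_of_mem_primeFactors hp
  have hpc : (p : ℂ) ≠ 0 := by exact_mod_cast hpp.ne_zero
  have h1 : ‖(p : ℂ) ^ (-(1 + z))‖ < 1 := by
    rw [Complex.norm_natCast_cpow_of_pos hpp.pos]
    refine Real.rpow_lt_one_of_one_lt_of_neg (by exact_mod_cast hpp.one_lt) ?_
    have h3 := (abs_le.1 ((Complex.abs_re_le_norm z).trans hz'.le)).1
    simp only [Complex.neg_re, Complex.add_re, Complex.one_re]
    linarith
  have h2 : 1 + (p : ℂ) ^ (-(1 + z)) ≠ 0 := by
    intro h
    have h2 : (p : ℂ) ^ (-(1 + z)) = -1 := by linear_combination h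
    rw [h2, norm_neg, norm_one] at h1
    exact lt_irrefl _ h1
  exact (differentiableAt_const _).add (((differentiableAt_const _).mul
    ((differentiableAt_const _).sub (hpow p hpc))).div ((differentiableAt_const _).add (hpow p hpc)) h2)

end Pool.Agent.LibF4J
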