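import Mathlib
import Pool.Agent.LibF4J.JDefs
import Pool.Agent.LibF4J.J07
import Pool.Agent.LibF4J.J08
import Pool.Agent.LibF4J.J09
import Pool.Agent.LibF4J.J10

/-! Row J11.
f(z) = ∑ c q JD(..) z. For ‖z‖ ≤ 1/(20 L): f(z) = JS S c (z/2) (z/2) 0 by J09_diag (coprime quotients, 1/(20L) ≤ 1/4), so ‖f z‖ ≤ C A by J07_bound; f 0 = JS S c 0 0 0 = ∫ Φ by J08_zero.
f is differentiable on the ball of radius R = 1/(20 L) (J10_diff); Schwarz (Complex.dist_le_div_mul_dist_of_mapsTo_ball, target ball of radius 2CA+ε, ε → 0; or Complex.norm_deriv_le_of_forall_mem_sphere_norm_le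
on balls of radius R/2 around points of the segment and the mean value inequality on the ball of radius R/2): ‖f z - f 0‖ ≤ 8 C A ‖z‖ / R for ‖z‖ ≤ R/2 = 1/(40 L). A ≥ 0 from the hypothesis at s = 0.
-/

set_option autoImplicit false

namespace Pool.Agent.LibF4J

open MeasureTheory Filter Topology Pool.Agent.LibMM99 Pool.Agent.LibTG78 Pool.Agent.LibFG78
open Pool.Agent.LibF4 (JF JD FF DD Fp px py)
open scoped ComplexConjugate

theorem J11_schwarz {f : ℂ → ℂ} {R B : ℝ} (hR : 0 < R) (hf : DifferentiableOn ℂ f (Metric.ball 0 R))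
    (hB : ∀ z : ℂ, ‖z‖ ≤ R → ‖f z‖ ≤ B) {z : ℂ} (hz : ‖z‖ < R) : ‖f z - f 0‖ ≤ 2 * B / R * ‖z‖ := by
  have h0 : ‖f 0‖ ≤ B := hB 0 (by rw [norm_zero]; exact hR.le)
  have hm : Set.MapsTo f (Metric.ball 0 R) (Metric.closedBall (f 0) (2 * B)) := by
    intro w hw
    rw [mem_ball_zero_iff] at hw
    rw [Metric.mem_closedBall, dist_eq_norm]
    have := hB w hw.le
    have h2 := norm_sub_le (f w) (f 0)
    linarith
  have hz' : z ∈ Metric.ball (0 : ℂ) R := mem_ball_zero_iff.2 hz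
  have h3 := Complex.dist_le_div_mul_dist_of_mapsTo_ball hf hm hz'
  rwa [dist_eq_norm, dist_zero_right] at h3

theorem J11_diag : ∃ C : ℝ, 1 ≤ C ∧ ∀ (L A : ℝ) (S : Finset (ℕ × ℕ)) (c : ℕ × ℕ → ℂ) (Φ : Om → ℝ), 1 ≤ L → Continuous Φ →
    (∀ q ∈ S, 1 ≤ q.1 ∧ 1 ≤ q.2 ∧
      (∀ p ∈ q.1.primeFactors, (p : ℝ) ≤ Real.exp L) ∧ (∀ p ∈ q.2.primeFactors, (p : ℝ) ≤ Real.exp L)) →
    (∀ x, ((Φ x : ℝ) : ℂ) = ∑ q ∈ S, c q * ch x q.1 * conj (ch x q.2)) →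
    (∀ s : ℂ, Adm s L → ∫ x, |Φ x| ∂(nu4 s L) ≤ A) →
    ∀ z : ℂ, ‖z‖ ≤ 1 / (40 * L) →
      ‖(∑ q ∈ S, c q * JD (q.1 / Nat.gcd q.1 q.2) (q.2 / Nat.gcd q.1 q.2) z) - ((∫ x, Φ x ∂(nu4 0 L) : ℝ) : ℂ)‖ ≤
        C * ‖z‖ * L * A := by
  obtain ⟨C, hC, hb⟩ := J07_bound
  refine ⟨40 * C, by linarith, ?_⟩
  intro L A S c Φ hL hΦ hS hrep hA z hz
  have hL0 : 0 < L := by linarith
  have hS' : ∀ q ∈ S, 1 ≤ q.1 / Nat.gcd q.1 q.2 ∧ 1 ≤ q.2 / Nat.gcd q.1 q.2 ∧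
      Nat.Coprime (q.1 / Nat.gcd q.1 q.2) (q.2 / Nat.gcd q.1 q.2) := by
    intro q hq
    obtain ⟨h1, h2, -, -⟩ := hS q hq
    have hg : 0 < Nat.gcd q.1 q.2 := Nat.gcd_pos_of_pos_left _ h1
    exact ⟨Nat.div_pos (Nat.gcd_le_left _ h1) hg, Nat.div_pos (Nat.gcd_le_right _ h2) hg,
      Nat.coprime_div_gcd_div_gcd hg⟩
  set f : ℂ → ℂ := fun z => ∑ q ∈ S, c q * JD (q.1 / Nat.gcd q.1 q.2) (q.2 / Nat.gcd q.1 q.2) z with hf
  have hfJ : ∀ w : ℂ, ‖w‖ ≤ 1 / (20 * L) → f w = JS S c (w / 2) (w / 2) 0 := by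
    intro w hw
    rw [hf]
    unfold JS
    refine Finset.sum_congr rfl fun q hq => ?_
    obtain ⟨h1, h2, h3⟩ := hS' q hq
    have hw' : ‖w‖ ≤ 1 / 4 := by
      refine hw.trans ?_
      apply one_div_le_one_div_of_le (by norm_num)
      linarith
    rw [J09_diag h1 h2 h3 hw']
  have hR : 0 < 1 / (20 * L) := by positivity
  have hB : ∀ w : ℂ, ‖w‖ ≤ 1 / (20 * L) → ‖f w‖ ≤ C * A := by
    intro w hw
    rw [hfJ w hw]
    have hw2 : ‖w / 2‖ ≤ 1 / (40 * L) := by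
      rw [norm_div, Complex.norm_ofNat, div_le_iff₀ (by norm_num)]
      refine hw.trans (le_of_eq ?_)
      field_simp
      norm_num
    exact hb L A S c Φ hL hΦ hS hrep hA _ _ _ hw2 hw2 (by rw [norm_zero]; positivity)
  have hd : DifferentiableOn ℂ f (Metric.ball 0 (1 / (20 * L))) := by
    rw [hf]
    refine DifferentiableOn.fun_sum fun q hq => ?_
    obtain ⟨h1, h2, -⟩ := hS' q hq
    refine ((J10_diff h1 h2).mono (Metric.ball_subset_ball ?_)).const_mul _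
    apply one_div_le_one_div_of_le (by norm_num)
    linarith
  have h0 : f 0 = ((∫ x, Φ x ∂(nu4 0 L) : ℝ) : ℂ) := by
    rw [hfJ 0 (by rw [norm_zero]; positivity), zero_div, J08_zero hL S c Φ hΦ hS hrep]
  have hz' : ‖z‖ < 1 / (20 * L) := by
    refine lt_of_le_of_lt hz ?_
    apply one_div_lt_one_div_of_lt (by positivity)
    linarith
  have h1 := J11_schwarz hR hd hB hz'
  rw [h0] at h1
  refine h1.trans (le_of_eq ?_)
  field_simp
  ring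

end Pool.Agent.LibF4J
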