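import Mathlib
import Pool.Agent.LibF4J.J07
import Pool.Agent.LibF4J.J11

/-! Block J: the two statements used for the twisted fourth moment. -/

set_option autoImplicit false

namespace Pool.Agent.LibF4J

open MeasureTheory Filter Topology Pool.Agent.LibMM99 Pool.Agent.LibTG78 Pool.Agent.LibFG78
open Pool.Agent.LibF4 (JF JD)
open scoped ComplexConjugate

/-- the off-diagonal functional of a polynomial is bounded by its tilted means -/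
theorem J_off : ∃ c0 C : ℝ, 0 < c0 ∧ c0 ≤ 1/8 ∧ 1 ≤ C ∧ ∀ (L A : ℝ) (S : Finset (ℕ × ℕ)) (c : ℕ × ℕ → ℂ) (Φ : Om → ℝ),
    1 ≤ L → Continuous Φ →
    (∀ q ∈ S, 1 ≤ q.1 ∧ 1 ≤ q.2 ∧ (∀ p ∈ q.1.primeFactors, (p:ℝ) ≤ Real.exp L) ∧
      (∀ p ∈ q.2.primeFactors, (p:ℝ) ≤ Real.exp L)) →
    (∀ x, ((Φ x : ℝ) : ℂ) = ∑ q ∈ S, c q * ch x q.1 * conj (ch x q.2)) →
    (∀ s : ℂ, Adm s L → ∫ x, |Φ x| ∂(nu4 s L) ≤ A) →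
    ∀ α β z : ℂ, ‖α‖ ≤ c0 / L → ‖β‖ ≤ c0 / L → ‖z‖ ≤ c0 / L →
    ‖∑ q ∈ S, c q * JF (q.1 / Nat.gcd q.1 q.2) (q.2 / Nat.gcd q.1 q.2) α β z‖ ≤ C * A := by
  obtain ⟨C, hC, h⟩ := J07_bound
  refine ⟨1 / 40, C, by norm_num, by norm_num, hC, ?_⟩
  intro L A S c Φ hL hΦ hS hrep hA α β z h1 h2 h3
  have e : (1 : ℝ) / 40 / L = 1 / (40 * L) := by rw [div_div]
  rw [e] at h1 h2 h3
  exact h L A S c Φ hL hΦ hS hrep hA α β z h1 h2 h3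

/-- the diagonal functional of a polynomial -/
theorem J_diag : ∃ c0 C : ℝ, 0 < c0 ∧ c0 ≤ 1/8 ∧ 1 ≤ C ∧ ∀ (L A : ℝ) (S : Finset (ℕ × ℕ)) (c : ℕ × ℕ → ℂ) (Φ : Om → ℝ),
    1 ≤ L → Continuous Φ →
    (∀ q ∈ S, 1 ≤ q.1 ∧ 1 ≤ q.2 ∧ (∀ p ∈ q.1.primeFactors, (p:ℝ) ≤ Real.exp L) ∧
      (∀ p ∈ q.2.primeFactors, (p:ℝ) ≤ Real.exp L)) →
    (∀ x, ((Φ x : ℝ) : ℂ) = ∑ q ∈ S, c q * ch x q.1 * conj (ch x q.2)) →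
    (∀ s : ℂ, Adm s L → ∫ x, |Φ x| ∂(nu4 s L) ≤ A) →
    ∀ z : ℂ, ‖z‖ ≤ c0 / L →
    ‖(∑ q ∈ S, c q * JD (q.1 / Nat.gcd q.1 q.2) (q.2 / Nat.gcd q.1 q.2) z) -
      ((∫ x, Φ x ∂(nu4 0 L) : ℝ) : ℂ)‖ ≤ C * A * L * ‖z‖ := by
  obtain ⟨C, hC, h⟩ := J11_diag
  refine ⟨1 / 40, C, by norm_num, by norm_num, hC, ?_⟩
  intro L A S c Φ hL hΦ hS hrep hA z h1
  have e : (1 : ℝ) / 40 / L = 1 / (40 * L) := by rw [div_div]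
  rw [e] at h1
  refine (h L A S c Φ hL hΦ hS hrep hA z h1).trans (le_of_eq ?_)
  ring

end Pool.Agent.LibF4J
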